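import Pool.Agent.Lib.MP_16285c_agT.Spec
import Pool.Agent.Lib.MP_16285c_agX.Gro.BkX

/-!
# The field of the relative degree: bookkeeping
-/

set_option autoImplicit false

namespace Pool.Agent.Lib.MP_16285c_agT

open Pool.Agent.Lib.MP_16285c_ag Pool.Agent.Lib.MP_16285c_agN Pool.Agent.Lib.MP_16285c_agX Pool.Agent.Lib.MP_16285c_agY

theorem tBkR : StmtBkR := by
  intro K E _ _ _ D e m α y g A
  have h : (Module.finrank (IntermediateField.adjoin D (Set.range (lfX A y) ∪
      Set.range (lfX (fun i : Fin α.card => Pi.single (α.orderEmbOfFin rfl i) (1 : K)) g))) E : ENNReal) ≤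
      degrR K D e α.card y g :=
    le_iSup₂ (f := fun (A : Fin (e - α.card) → Fin m → K) (B : Fin α.card → Fin m → K) =>
      (Module.finrank (IntermediateField.adjoin D (Set.range (lfX A y) ∪ Set.range (lfX B g))) E :
        ENNReal)) A (fun i : Fin α.card => Pi.single (α.orderEmbOfFin rfl i) (1 : K))
  refine le_trans (le_of_eq ?_) h
  congr 1
  rw [GroBkXM.range_lf, Set.union_comm, ← IntermediateField.adjoin_adjoin_left D _ (Set.range (lfX A y))]
  rfl

end Pool.Agent.Lib.MP_16285c_agT
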