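import Pool.Agent.Lib.MP_16285c_agT.Spec

set_option autoImplicit false

open Pool.Agent.Lib.MP_16285c_ag Pool.Agent.Lib.MP_16285c_agN Pool.Agent.Lib.MP_16285c_agX
  Pool.Agent.Lib.MP_16285c_agY

namespace Pool.Agent.Lib.MP_16285c_agT.TCmp3M

open IntermediateField

/-- The degree of a compositum over the second factor is at most the degree of the first. -/
theorem relfinrank_sup_le {K L : Type} [Field K] [Field L] [Algebra K L]
    (A B C : IntermediateField K L) (hAB : A ≤ B) (hAC : A ≤ C) (hf : 0 < relfinrank A B) :
    relfinrank C (B ⊔ C) ≤ relfinrank A B := by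
  let B' : IntermediateField A L := extendScalars hAB
  let _ : Algebra A C := (inclusion hAC).toRingHom.toAlgebra
  have : IsScalarTower A C L := IsScalarTower.of_algebraMap_eq (fun _ => rfl)
  have h1 : relfinrank A B = Module.finrank A B' := relfinrank_eq_finrank_of_le hAB
  have hfin : FiniteDimensional A B' := by
    apply FiniteDimensional.of_finrank_pos
    rw [← h1]; exact hf
  have halg : Algebra.IsAlgebraic A B' := Algebra.IsAlgebraic.of_finite A B'
  have h2 : Module.rank C (adjoin C (B' : Set L)) ≤ Module.rank A B' :=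
    adjoin_rank_le_of_isAlgebraic_right C B'
  have h3 : adjoin C (B' : Set L) = extendScalars (le_sup_right : C ≤ B ⊔ C) := by
    apply restrictScalars_injective K
    rw [restrictScalars_adjoin_eq_sup, extendScalars_restrictScalars, sup_comm]
    congr 1
    exact adjoin_self K B
  have h4 : relfinrank C (B ⊔ C) = Module.finrank C (adjoin C (B' : Set L)) := by
    rw [relfinrank_eq_finrank_of_le (le_sup_right : C ≤ B ⊔ C), h3]
  rw [h4, h1]
  exact Cardinal.toNat_le_toNat h2 (Module.rank_lt_aleph0 A B')

end Pool.Agent.Lib.MP_16285c_agT.TCmp3M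

namespace Pool.Agent.Lib.MP_16285c_agT

open IntermediateField

theorem tCmp3 : StmtCmp3 := by
  intro K B L _ _ _ _ _ j A C hAC hfin hfin2
  have hAB : A.map j ≤ j.fieldRange := by
    rw [AlgHom.fieldRange_eq_map]
    exact map_mono j le_top
  have hrel : relfinrank (A.map j) j.fieldRange = Module.finrank A B := by
    rw [AlgHom.fieldRange_eq_map, relfinrank_map_map, relfinrank_top_right]
  have hpos : 0 < relfinrank (A.map j) j.fieldRange := by
    rw [hrel]; exact Module.finrank_pos
  have h := TCmp3M.relfinrank_sup_le (A.map j) j.fieldRange C hAB hAC hpos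
  rw [hrel] at h
  rw [← relfinrank_mul_finrank_top (le_sup_right : C ≤ j.fieldRange ⊔ C)]
  exact Nat.mul_le_mul_right _ h

end Pool.Agent.Lib.MP_16285c_agT
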