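import Pool.Agent.Lib.MP_16285c_agT.Spec
import Pool.Agent.Lib.MP_16285c_agX.Gro.DescX

/-! # The relative degrees over a smaller field (`StmtDescR`) -/

set_option autoImplicit false

namespace Pool.Agent.Lib.MP_16285c_agT

open Pool.Agent.Lib.MP_16285c_ag Pool.Agent.Lib.MP_16285c_agN Pool.Agent.Lib.MP_16285c_agX Pool.Agent.Lib.MP_16285c_agY

namespace TDescRM

theorem fr_left {F E : Type} [Field F] [Field E] [Algebra F E] (D : IntermediateField F E)
    (S T : Set E) (hD : D = IntermediateField.adjoin F S) :
    Module.finrank (IntermediateField.adjoin D T) E =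
      Module.finrank (IntermediateField.adjoin F (S ∪ T)) E := by
  subst hD
  rw [← IntermediateField.adjoin_adjoin_left]
  rfl

end TDescRM

open TDescRM GroDescXM in
theorem tDescR : StmtDescR := by
  intro K k _ _ _ E E' E₀ _ _ _ _ _ _ _ _ β hdj m y g' hy' ε q h g hg hβ e i
  refine iSup₂_le fun A B => ?_
  refine le_trans ?_ (le_iSup₂ (f := fun (A : Fin (e - i) → Fin m → k) (B : Fin i → Fin m → k) =>
    (Module.finrank (IntermediateField.adjoin ε.fieldRange
      (Set.range (lfX A (fun j => β (y j))) ∪ Set.range (lfX B (fun j => β (g' j))))) E' : ENNReal))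
    (fun i j => algebraMap K k (A i j)) (fun i j => algebraMap K k (B i j)))
  have hε : ε.fieldRange = IntermediateField.adjoin k (β '' Set.range h) := by
    rw [AlgHom.fieldRange_eq_map, ← hg, IntermediateField.adjoin_map, ← Set.range_comp,
      ← Set.range_comp]
    have h1 : (ε : E₀ → E') ∘ g = (β : E → E') ∘ h := funext fun j => (hβ j).symm
    rw [h1]
  rw [fr_left _ (Set.range h) _ rfl, fr_left _ _ _ hε, Nat.cast_le, lf_be β A y, lf_be β B g',
    ← Set.image_union, ← Set.image_union]
  exact key β hdj y hy' _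

end Pool.Agent.Lib.MP_16285c_agT
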