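import Pool.Agent.Lib.MP_16285c_agT.Spec
import Pool.Agent.Lib.MP_16285c_agS.Top.Fin

/-!
# (FldA) The function field of the base over a small field
-/

set_option autoImplicit false

namespace Pool.Agent.Lib.MP_16285c_agT

open Pool.Agent.Lib.MP_16285c_ag Pool.Agent.Lib.MP_16285c_agN Pool.Agent.Lib.MP_16285c_agX Pool.Agent.Lib.MP_16285c_agY
open Pool.Agent.Lib.MP_16285c_agS (toF StmtDom)

namespace TFldAM

open Pool.Agent.Lib.MP_16285c_agS.TopFinM (cf desc_poly)

/-- Descent of a polynomial whose coefficients are in the image. -/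
theorem desc {K k : Type} [Field K] [Field k] [Algebra K k] {m : ℕ} (S : Finset k)
    (hS : ∀ s ∈ S, s ∈ Set.range (algebraMap K k)) (G : Pl m k) (h : cf G ⊆ S) :
    ∃ G₀ : Pl m K, MvPolynomial.map (algebraMap K k) G₀ = G := by
  classical
  apply desc_poly
  intro s hs
  apply hS
  apply h
  unfold cf
  exact Finset.mem_image_of_mem _ hs

theorem pow_it {K E : Type} [Field K] [Field E] [Algebra K E] (ρ : E →ₐ[K] E) (m : ℕ) (x : E) :
    (ρ ^ m) x = ρ^[m] x := by
  induction m generalizing x with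
  | zero => rfl
  | succ m ih => rw [pow_succ, AlgHom.mul_apply, ih, Function.iterate_succ_apply]

theorem it_comm {A B : Type} (β : A → B) (ρ : A → A) (ψ : B → B) (h : ∀ x, β (ρ x) = ψ (β x)) (m : ℕ)
    (x : A) : β (ρ^[m] x) = ψ^[m] (β x) := by
  induction m generalizing x with
  | zero => rfl
  | succ m ih => rw [Function.iterate_succ_apply, Function.iterate_succ_apply, ih, h]

/-- Values of polynomials under `β` and `ε`. -/
theorem bt {K k E E' E₀ : Type} [Field K] [Field k] [Algebra K k] [Field E] [Field E'] [Field E₀]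
    [Algebra K E] [Algebra k E'] [Algebra K E'] [IsScalarTower K k E'] [Algebra k E₀]
    (β : E →ₐ[K] E') (ε : E₀ →ₐ[k] E') {a : ℕ} (z : Fin a → E) (z' : Fin a → E₀)
    (hz : ∀ j, β (z j) = ε (z' j)) (A : MvPolynomial (Fin a) K) :
    β (MvPolynomial.aeval z A) = ε (MvPolynomial.aeval z' (MvPolynomial.map (algebraMap K k) A)) := by
  induction A using MvPolynomial.induction_on with
  | C r =>
    rw [MvPolynomial.aeval_C, MvPolynomial.map_C, MvPolynomial.aeval_C, AlgHom.commutes,
      AlgHom.commutes, ← IsScalarTower.algebraMap_apply]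
  | add p q hp hq => rw [map_add, map_add, map_add, map_add, map_add, hp, hq]
  | mul_X p i hp =>
    rw [map_mul, map_mul, hp, MvPolynomial.aeval_X, hz, map_mul, MvPolynomial.map_X, map_mul,
      MvPolynomial.aeval_X, map_mul]

end TFldAM

open TFldAM in
theorem tFldA (hCmp : StmtCmpB) (hTpLe : StmtTpLe) (hFn : StmtFn) (hCmn : StmtCmn) (hAlgR : StmtAlgR)
    (hAlgK : StmtAlgK) (h1 : StmtG1) (_hDom : StmtDom) (hPresX : StmtPresX) (hRes : StmtResF) :
    StmtFldA := by
  classical
  intro k _ _ _ n l m' hl P f hirr hmon hinv E' E₀ _ _ _ _ ε φ φ₀ hε ξ hgen hfξ g hg hgx htb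
  obtain ⟨c, Y, hc, hY⟩ := hCmn k E' (n + 1) (l + m') ξ (fun i => ε (g i)) hgen.top
  obtain ⟨q, R, hq, hR⟩ := hCmn k E₀ (l + m') (l + m') g (fun i => φ₀ (g i)) hg
  have halg₀ := htb.isAlgebraic_field
  choose F hF0 hF using fun i => hAlgR k E₀ l (fun i => g (Fin.castAdd m' i)) htb.1 (g i)
    (halg₀.isAlgebraic (g i))
  set S : Finset k := Pool.Agent.Lib.MP_16285c_agS.TopFinM.cf c ∪
    ((Finset.univ.biUnion fun i => Pool.Agent.Lib.MP_16285c_agS.TopFinM.cf (Y i)) ∪
      (Pool.Agent.Lib.MP_16285c_agS.TopFinM.cf q ∪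
        ((Finset.univ.biUnion fun i => Pool.Agent.Lib.MP_16285c_agS.TopFinM.cf (R i)) ∪
          Finset.univ.biUnion fun i => Pool.Agent.Lib.MP_16285c_agS.TopFinM.cf (F i)))) with hSdef
  refine ⟨S, ?_⟩
  intro K _ _ _ PK fK hS hPK hfK hirrK hmonK hinvK σK hOf M hM E _ _ _ _ _ ρ hRst _ _ β hβ hdis
  have hSc : Pool.Agent.Lib.MP_16285c_agS.TopFinM.cf c ⊆ S := fun s hs => by
    simp only [hSdef, Finset.mem_union]
    exact Or.inl hs
  have hSY : ∀ i, Pool.Agent.Lib.MP_16285c_agS.TopFinM.cf (Y i) ⊆ S := fun i s hs => by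
    simp only [hSdef, Finset.mem_union]
    exact Or.inr (Or.inl (Finset.mem_biUnion.2 ⟨i, Finset.mem_univ _, hs⟩))
  have hSq : Pool.Agent.Lib.MP_16285c_agS.TopFinM.cf q ⊆ S := fun s hs => by
    simp only [hSdef, Finset.mem_union]
    exact Or.inr (Or.inr (Or.inl hs))
  have hSR : ∀ i, Pool.Agent.Lib.MP_16285c_agS.TopFinM.cf (R i) ⊆ S := fun i s hs => by
    simp only [hSdef, Finset.mem_union]
    exact Or.inr (Or.inr (Or.inr (Or.inl (Finset.mem_biUnion.2 ⟨i, Finset.mem_univ _, hs⟩))))
  have hSF : ∀ i, Pool.Agent.Lib.MP_16285c_agS.TopFinM.cf (F i) ⊆ S := fun i s hs => by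
    simp only [hSdef, Finset.mem_union]
    exact Or.inr (Or.inr (Or.inr (Or.inr (Finset.mem_biUnion.2 ⟨i, Finset.mem_univ _, hs⟩))))
  obtain ⟨cK, hcK⟩ := desc S hS c hSc
  choose YK hYK using fun i => desc S hS (Y i) (hSY i)
  obtain ⟨qK, hqK⟩ := desc S hS q hSq
  choose RK hRK using fun i => desc S hS (R i) (hSR i)
  choose FK hFK using fun i => desc S hS (F i) (hSF i)
  have hprime : (Ideal.span {PK}).IsPrime :=
    (Ideal.span_singleton_prime hirrK.ne_zero).2 hirrK.prime
  have hβi : Function.Injective β := β.toRingHom.injective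
  -- the elements `h i`
  have hcE : β (toF (Ideal.span {PK}) E cK) ≠ 0 := by
    rw [hβ, hcK]
    exact hc
  have hcE' : toF (Ideal.span {PK}) E cK ≠ 0 := fun h0 => hcE (by rw [h0, map_zero])
  let h : Fin (l + m') → E := fun i => toF (Ideal.span {PK}) E (YK i) / toF (Ideal.span {PK}) E cK
  have hhdef : ∀ i, h i = toF (Ideal.span {PK}) E (YK i) / toF (Ideal.span {PK}) E cK := fun i => rfl
  have hβh : ∀ i, β (h i) = ε (g i) := by
    intro i
    rw [hhdef, map_div₀, div_eq_iff hcE, hβ, hβ, hYK, hcK]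
    exact (hY i).symm
  have hhX : ∀ i : Fin l, h (Fin.castAdd m' i) =
      toF (Ideal.span {PK}) E (MvPolynomial.X (Fin.castLE hl i).succ) := by
    intro i
    apply hβi
    rw [hβh, hgx, hβ, MvPolynomial.map_X, MvPolynomial.aeval_X]
  -- the maps
  have hden : ∀ i, MvPolynomial.aeval ξ ((fK.map (algebraMap K k)).den i) ≠ 0 := by
    intro i h0
    rw [hfK] at h0
    exact hinv.1 i ((hgen.ker _).1 h0)
  have hfvK : ∀ i, fvn (fK.map (algebraMap K k)) ξ i = φ (ξ i) := by
    intro i
    rw [hfK]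
    exact hfξ i
  have hPres := hPresX K n PK fK σK hirrK hOf hinvK
  obtain ⟨ρ₁, hρ₁⟩ := hRes (n + 1) K σK (Ideal.span {PK}) hprime hPres E
  have hcmp₁ : ∀ x, β (ρ₁ x) = φ (β x) := by
    intro x
    have h2 := hCmp K k n PK E E' ξ β hβ fK σK φ 1 ρ₁ hOf hden hfvK (by rw [pow_one]; exact hρ₁) x
    rw [pow_one] at h2
    exact h2
  have hcmp := hCmp K k n PK E E' ξ β hβ fK σK φ M ρ hOf hden hfvK hRst
  have hρit : ∀ x, ρ x = ρ₁^[M] x := by
    intro x
    apply hβi
    rw [hcmp, pow_it]
    exact (it_comm (fun x => β x) (fun x => ρ₁ x) (fun x => φ x) hcmp₁ M x).symm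
  -- the subfield
  have hD₁ : ∀ x ∈ IntermediateField.adjoin K (Set.range h), ρ₁ x ∈ IntermediateField.adjoin K (Set.range h) := by
    have h2 : IntermediateField.adjoin K (Set.range h) ≤
        (IntermediateField.adjoin K (Set.range h)).comap ρ₁ := by
      rw [IntermediateField.adjoin_le_iff]
      rintro _ ⟨i, rfl⟩
      show ρ₁ (h i) ∈ IntermediateField.adjoin K (Set.range h)
      have hmem : ∀ A : MvPolynomial (Fin (l + m')) K, MvPolynomial.aeval h A ∈
          IntermediateField.adjoin K (Set.range h) := by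
        intro A
        have h3 : MvPolynomial.aeval h A ∈ Algebra.adjoin K (Set.range h) := by
          rw [Algebra.adjoin_range_eq_range_aeval]
          exact ⟨A, rfl⟩
        exact IntermediateField.algebra_adjoin_le_adjoin K _ h3
      have hq' : MvPolynomial.aeval h qK ≠ 0 := by
        intro h0
        have h3 := bt β ε h g hβh qK
        rw [h0, map_zero, hqK] at h3
        exact hq ((map_eq_zero ε).1 h3.symm)
      have h4 : ρ₁ (h i) * MvPolynomial.aeval h qK = MvPolynomial.aeval h (RK i) := by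
        apply hβi
        rw [map_mul, hcmp₁, hβh, ← hε, bt β ε h g hβh, bt β ε h g hβh, hqK, hRK, ← hR i, map_mul]
      rw [eq_div_of_mul_eq hq' h4]
      exact div_mem (hmem _) (hmem _)
    exact fun x hx => h2 hx
  have hDit : ∀ (j : ℕ) (x : E), x ∈ IntermediateField.adjoin K (Set.range h) →
      ρ₁^[j] x ∈ IntermediateField.adjoin K (Set.range h) := by
    intro j
    induction j with
    | zero => exact fun x hx => hx
    | succ j ih =>
      intro x hx
      rw [Function.iterate_succ_apply]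
      exact ih _ (hD₁ x hx)
  have hD : ∀ x ∈ IntermediateField.adjoin K (Set.range h), ρ x ∈ IntermediateField.adjoin K (Set.range h) := by
    intro x hx
    rw [hρit]
    exact hDit M x hx
  let ρ₀ : IntermediateField.adjoin K (Set.range h) →ₐ[K] IntermediateField.adjoin K (Set.range h) :=
    AlgHom.codRestrict (ρ.comp (IntermediateField.adjoin K (Set.range h)).val)
      (IntermediateField.adjoin K (Set.range h)).toSubalgebra fun d => hD d d.2
  have hρ₀ : ∀ d, (ρ₀ d : E) = ρ (d : E) := fun d => rfl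
  -- the embedding of the subfield in `E₀`
  let _ : Algebra K E₀ := ((algebraMap k E₀).comp (algebraMap K k)).toAlgebra
  have hst : IsScalarTower K k E₀ := IsScalarTower.of_algebraMap_eq fun _ => rfl
  let εK : E₀ →ₐ[K] E' := ε.restrictScalars K
  have hεK : ∀ x, εK x = ε x := fun _ => rfl
  have hεi : Function.Injective εK := εK.toRingHom.injective
  have hran : ∀ x ∈ IntermediateField.adjoin K (Set.range h), β x ∈ εK.fieldRange := by
    have h2 : IntermediateField.adjoin K (Set.range h) ≤ εK.fieldRange.comap β := by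
      rw [IntermediateField.adjoin_le_iff]
      rintro _ ⟨i, rfl⟩
      exact ⟨g i, (hβh i).symm⟩
    exact fun x hx => h2 hx
  let b₁ : IntermediateField.adjoin K (Set.range h) →ₐ[K] εK.range :=
    AlgHom.codRestrict (β.comp (IntermediateField.adjoin K (Set.range h)).val) εK.range
      fun d => hran d d.2
  let β₀ : IntermediateField.adjoin K (Set.range h) →ₐ[K] E₀ :=
    ((AlgEquiv.ofInjective εK hεi).symm : εK.range →ₐ[K] E₀).comp b₁
  have hβ₀ : ∀ d, ε (β₀ d) = β (d : E) := by
    intro d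
    have h2 : (AlgEquiv.ofInjective εK hεi) (β₀ d) = b₁ d :=
      (AlgEquiv.ofInjective εK hεi).apply_symm_apply (b₁ d)
    exact congrArg Subtype.val h2
  have hεinj : Function.Injective ε := ε.toRingHom.injective
  have hcomm : ∀ d, β₀ (ρ₀ d) = (φ₀ ^ M) (β₀ d) := by
    intro d
    apply hεinj
    rw [hβ₀, hρ₀, hcmp, pow_it, pow_it, ← hβ₀]
    exact (it_comm (fun x => ε x) (fun x => φ₀ x) (fun x => φ x) hε M (β₀ d)).symm
  have hfin₀ : Module.Finite (φ₀ ^ M).fieldRange E₀ := hFn k E₀ (l + m') g hg (φ₀ ^ M)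
  have hdis₀ : ∀ (s : ℕ) (b : Fin s → k), LinearIndependent K b →
      ∀ x : Fin s → IntermediateField.adjoin K (Set.range h),
      ∑ t, algebraMap k E₀ (b t) * β₀ (x t) = 0 → ∀ t, x t = 0 := by
    intro s b hb x hx t
    apply Subtype.ext
    refine hdis s b hb (fun t => (x t : E)) ?_ t
    have h2 := congrArg ε hx
    rw [map_zero, map_sum] at h2
    rw [← h2]
    refine Finset.sum_congr rfl fun t _ => ?_
    rw [map_mul, hβ₀, AlgHom.commutes]
  let y : Fin (l + m') → IntermediateField.adjoin K (Set.range h) :=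
    fun i => ⟨h i, IntermediateField.subset_adjoin K _ ⟨i, rfl⟩⟩
  have hy : ∀ i, β₀ (y i) = g i := by
    intro i
    apply hεinj
    rw [hβ₀]
    exact hβh i
  have hle := hTpLe K k (IntermediateField.adjoin K (Set.range h)) E₀ β₀ ρ₀ (φ₀ ^ M) hcomm hfin₀ hdis₀
    (l + m') y (by
      have e : (fun i => β₀ (y i)) = g := funext hy
      rw [e]
      exact hg)
  rw [h1.2.1 k E₀ φ₀ M] at hle
  have hytop : IntermediateField.adjoin K (Set.range y) = ⊤ := by
    apply IntermediateField.map_injective (IntermediateField.adjoin K (Set.range h)).val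
    rw [IntermediateField.adjoin_map, ← AlgHom.fieldRange_eq_map, IntermediateField.fieldRange_val]
    have e : (IntermediateField.adjoin K (Set.range h)).val '' Set.range y = Set.range h := by
      rw [← Set.range_comp]
      rfl
    rw [e]
  have hfinD : Module.Finite ρ₀.fieldRange (IntermediateField.adjoin K (Set.range h)) :=
    hFn K _ (l + m') y hytop ρ₀
  -- algebraicity
  have hind : AlgebraicIndependent K (fun a : Fin l => h (Fin.castAdd m' a)) := by
    rw [algebraicIndependent_iff]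
    intro G hG
    have h2 := bt β ε (fun a : Fin l => h (Fin.castAdd m' a)) (fun a => g (Fin.castAdd m' a))
      (fun a => hβh _) G
    rw [hG, map_zero] at h2
    have h3 := (algebraicIndependent_iff.1 htb.1) _ ((map_eq_zero ε).1 h2.symm)
    exact (map_eq_zero_iff _ (MvPolynomial.map_injective _ (algebraMap K k).injective)).1 h3
  refine ⟨cK, YK, h, ρ₀, ?_, fun i => div_mul_cancel₀ _ hcE', hhX, hβh, hρ₀, fun i => ?_, hfinD, hle⟩
  · rintro ⟨B, hB⟩
    apply hcE'
    have h2 : cl (Ideal.span {PK}) cK = 0 :=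
      Ideal.Quotient.eq_zero_iff_mem.2 (Ideal.mem_span_singleton.2 ⟨B, hB⟩)
    have h3 : toF (Ideal.span {PK}) E cK = algebraMap (CR (Ideal.span {PK})) E (cl (Ideal.span {PK}) cK) := rfl
    rw [h3, h2, map_zero]
  · refine hAlgK K E l (fun a : Fin l => h (Fin.castAdd m' a)) hind (h i) (FK i) ?_ ?_
    · intro h0
      apply hF0 i
      rw [← hFK i, h0, map_zero]
    · apply hβi
      rw [map_zero, bt β ε (Fin.cons (h i) fun a : Fin l => h (Fin.castAdd m' a))
        (Fin.cons (g i) fun a : Fin l => g (Fin.castAdd m' a)) ?_ (FK i), hFK, hF i, map_zero]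
      intro j
      refine Fin.cases ?_ (fun j => ?_) j
      · exact hβh i
      · exact hβh _

end Pool.Agent.Lib.MP_16285c_agT
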