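import Mathlib

/-!
# MP_16285c, ZDT: the transcendence degree of a field generated by elements which are algebraic
over a subfield generated by an independent family
-/

set_option autoImplicit false

namespace Pool.Agent.Lib.MP_16285c_agT

/-- The transcendence degree of `K(h)`, if `K(h)` contains an algebraically independent family
over which the `h i` are algebraic. -/
def StmtTrdD : Prop :=
  ∀ (K E : Type) [Field K] [Field E] [Algebra K E] (l q : ℕ) (h : Fin q → E) (x : Fin l → E),
    AlgebraicIndependent K x → (∀ a, x a ∈ IntermediateField.adjoin K (Set.range h)) →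
    (∀ i, IsAlgebraic (IntermediateField.adjoin K (Set.range x)) (h i)) →
    Algebra.trdeg K (IntermediateField.adjoin K (Set.range h)) = l

namespace TTrdDM

open scoped IntermediateField.algebraAdjoinAdjoin

/-- Every element of `K(h)` is algebraic over the algebra generated by `x`. -/
theorem alg_mem {K E : Type} [Field K] [Field E] [Algebra K E] {l q : ℕ} (h : Fin q → E)
    (x : Fin l → E) (halg : ∀ i, IsAlgebraic (IntermediateField.adjoin K (Set.range x)) (h i))
    (d : E) (hd : d ∈ IntermediateField.adjoin K (Set.range h)) :
    IsAlgebraic (Algebra.adjoin K (Set.range x)) d := by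
  have h1 : Algebra.IsAlgebraic (IntermediateField.adjoin K (Set.range x))
      (IntermediateField.adjoin (IntermediateField.adjoin K (Set.range x)) (Set.range h)) := by
    apply IntermediateField.isAlgebraic_adjoin
    rintro _ ⟨i, rfl⟩
    exact (halg i).isIntegral
  have hle : IntermediateField.adjoin K (Set.range h) ≤
      (IntermediateField.adjoin (IntermediateField.adjoin K (Set.range x))
        (Set.range h)).restrictScalars K := by
    rw [IntermediateField.adjoin_le_iff]
    exact IntermediateField.subset_adjoin _ _
  have h2 : IsAlgebraic (IntermediateField.adjoin K (Set.range x)) d := by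
    have h3 := h1.isAlgebraic (⟨d, hle hd⟩ : IntermediateField.adjoin
      (IntermediateField.adjoin K (Set.range x)) (Set.range h))
    exact h3.algebraMap (A := E)
  have h4 : Algebra.IsAlgebraic (Algebra.adjoin K (Set.range x))
      (IntermediateField.adjoin K (Set.range x)) := inferInstance
  exact IsAlgebraic.restrictScalars (Algebra.adjoin K (Set.range x)) h2

end TTrdDM

open TTrdDM in
/-- The transcendence degree of `K(h)`. -/
theorem tTrdD : StmtTrdD := by
  intro K E _ _ _ l q h x hx hmem halg
  set D := IntermediateField.adjoin K (Set.range h) with hD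
  let x' : Fin l → D := fun a => ⟨x a, hmem a⟩
  have hx' : AlgebraicIndependent K x' := by
    refine AlgebraicIndependent.of_comp D.val ?_
    exact hx
  have hmap : (Algebra.adjoin K (Set.range x')).map D.val = Algebra.adjoin K (Set.range x) := by
    rw [AlgHom.map_adjoin]
    congr 1
    rw [← Set.range_comp]
    rfl
  have hA : Algebra.IsAlgebraic (Algebra.adjoin K (Set.range x')) D := by
    constructor
    intro d
    have h1 : IsAlgebraic (Algebra.adjoin K (Set.range x)) ((D.val : D →ₐ[K] E) d) :=
      alg_mem h x halg _ d.2
    have hc : ∀ a : Algebra.adjoin K (Set.range x'), D.val (a : D) ∈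
        Algebra.adjoin K (Set.range x) := by
      intro a
      rw [← hmap]
      exact ⟨a, a.2, rfl⟩
    let f : Algebra.adjoin K (Set.range x') →+* Algebra.adjoin K (Set.range x) :=
      ((D.val.comp (Algebra.adjoin K (Set.range x')).val).codRestrict
        (Algebra.adjoin K (Set.range x)) hc : _ →ₐ[K] _)
    have hf : Function.Surjective f := by
      intro b
      have hb : (b : E) ∈ (Algebra.adjoin K (Set.range x')).map D.val := by
        rw [hmap]
        exact b.2
      obtain ⟨a, ha, hab⟩ := hb
      exact ⟨⟨a, ha⟩, Subtype.ext hab⟩
    exact h1.of_ringHom_of_comp_eq f (D.val : D →+* E) hf D.val.injective rfl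
  have hb : IsTranscendenceBasis K x' :=
    isTranscendenceBasis_iff_algebraicIndependent_isAlgebraic.2 ⟨hx', hA⟩
  rw [← hb.cardinalMk_eq_trdeg]
  simp

end Pool.Agent.Lib.MP_16285c_agT
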