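import Pool.Agent.Lib.MP_16285c_agT.Spec
import Pool.Agent.Lib.MP_16285c_agX.Gro.GroX
import Pool.Agent.Lib.MP_16285c_agX.Top.InvDX
import Pool.Agent.Lib.MP_16285c_agS.Top.Fin
import Pool.Agent.Lib.MP_16285c_agY.GrBB
import Pool.Agent.Lib.MP_16285c_agT.TrdD

/-!
# The growth hypothesis from the relative dynamical degrees
-/

set_option autoImplicit false

namespace Pool.Agent.Lib.MP_16285c_agT

open Pool.Agent.Lib.MP_16285c_ag Pool.Agent.Lib.MP_16285c_agN Pool.Agent.Lib.MP_16285c_agX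
open Pool.Agent.Lib.MP_16285c_agY
open Pool.Agent.Lib.MP_16285c_agS (toF)

open Pool.Agent.Lib.MP_16285c_agX.GroXM Pool.Agent.Lib.MP_16285c_agY.YGrBBM in
theorem tGroR (hRs : StmtRsE) (hRsR : StmtRsR) (hDeg : StmtDegR) (hBet : StmtBet) (hCmp : StmtCmpB)
    (hDesc : StmtDescR) (hTp : StmtTpX) (hY : StmtYX) (hHat : StmtHat) (hG1 : StmtG1)
    (hReal : StmtRealR) (hFld : StmtFldA) (hResD : StmtResD) (hRkL : StmtRkL) (hCmn : StmtCmn)
    (hTrdD : StmtTrdD) : StmtGroR := by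
  classical
  intro k _ _ _ n l m' hl P f hP hmon hinv E' E₀ _ _ _ _ ε φ φ₀ hε ξ hgen hfv g hg hgx htb m y'
    hy'top hlam
  obtain ⟨c, Y, hc, hY'⟩ := hCmn k E' (n + 1) m ξ y' hgen.top
  obtain ⟨d, Z, hd, hZ⟩ := hCmn k E' m (n + 1) y' ξ hy'top
  obtain ⟨S₁, hS₁⟩ := hFld k n l m' hl P f hP hmon hinv E' E₀ ε φ φ₀ hε ξ hgen hfv g hg hgx htb
  set S : Finset k := Pool.Agent.Lib.MP_16285c_agS.TopFinM.cf c ∪
    ((Finset.univ.biUnion fun i => Pool.Agent.Lib.MP_16285c_agS.TopFinM.cf (Y i)) ∪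
      (Pool.Agent.Lib.MP_16285c_agS.TopFinM.cf d ∪
        Finset.univ.biUnion fun j => Pool.Agent.Lib.MP_16285c_agS.TopFinM.cf (Z j))) with hSdef
  refine ⟨S ∪ S₁, ?_⟩
  intro K _ _ _ PK fK hSS hPK hfK hirrK hmonK hinvK σK hOf M hM E _ _ _ _ _ ρ hRst
  have hS : ∀ s ∈ S, s ∈ Set.range (algebraMap K k) := fun s hs =>
    hSS s (Finset.mem_union_left _ hs)
  have hSc : Pool.Agent.Lib.MP_16285c_agS.TopFinM.cf c ⊆ S := fun s hs => by
    rw [hSdef, Finset.mem_union]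
    exact Or.inl hs
  have hSY : ∀ i, Pool.Agent.Lib.MP_16285c_agS.TopFinM.cf (Y i) ⊆ S := fun i s hs => by
    rw [hSdef, Finset.mem_union, Finset.mem_union]
    exact Or.inr (Or.inl (Finset.mem_biUnion.2 ⟨i, Finset.mem_univ _, hs⟩))
  have hSd : Pool.Agent.Lib.MP_16285c_agS.TopFinM.cf d ⊆ S := fun s hs => by
    rw [hSdef, Finset.mem_union, Finset.mem_union, Finset.mem_union]
    exact Or.inr (Or.inr (Or.inl hs))
  have hSZ : ∀ j, Pool.Agent.Lib.MP_16285c_agS.TopFinM.cf (Z j) ⊆ S := fun j s hs => by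
    rw [hSdef, Finset.mem_union, Finset.mem_union, Finset.mem_union]
    exact Or.inr (Or.inr (Or.inr (Finset.mem_biUnion.2 ⟨j, Finset.mem_univ _, hs⟩)))
  obtain ⟨cK, hcK⟩ := desc S hS c hSc
  choose YK hYK using fun i => desc S hS (Y i) (hSY i)
  obtain ⟨dK, hdK⟩ := desc S hS d hSd
  choose ZK hZK using fun j => desc S hS (Z j) (hSZ j)
  let _ : Algebra K E' := ((algebraMap k E').comp (algebraMap K k)).toAlgebra
  have hst : IsScalarTower K k E' := IsScalarTower.of_algebraMap_eq fun _ => rfl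
  have hprime : (Ideal.span {PK}).IsPrime :=
    (Ideal.span_singleton_prime hirrK.ne_zero).2 hirrK.prime
  have hgenK : GenN (MvPolynomial.map (algebraMap K k) PK) ξ := by rw [hPK]; exact hgen
  obtain ⟨β, hβ, hdis⟩ := hBet K k n PK hmonK E E' ξ hgenK
  have hden : ∀ i, MvPolynomial.aeval ξ ((fK.map (algebraMap K k)).den i) ≠ 0 := by
    intro i h0
    rw [hfK] at h0
    exact hinv.1 i ((hgen.ker _).1 h0)
  have hfvK : ∀ i, fvn (fK.map (algebraMap K k)) ξ i = φ (ξ i) := by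
    intro i
    rw [hfK]
    exact hfv i
  have hcmp := hCmp K k n PK E E' ξ β hβ fK σK φ M ρ hOf hden hfvK hRst
  obtain ⟨c₁, Y₁, h, ρ₀, hc₁, hY₁, hX₁, hβh, hρ₀, halg, hfin₀, hT₀⟩ :=
    hS₁ K PK fK (fun s hs => hSS s (Finset.mem_union_right _ hs)) hPK hfK hirrK hmonK hinvK σK hOf
      M hM E ρ hRst β hβ hdis
  have hdeg : dK.totalDegree = d.totalDegree := by
    rw [← hdK]
    unfold MvPolynomial.totalDegree
    rw [MvPolynomial.support_map_of_injective _ (algebraMap K k).injective]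
  have heK' : MvPolynomial.map (algebraMap K k) (cK * hatX cK YK dK.totalDegree dK) =
      c * hatX c Y d.totalDegree d := by
    rw [map_mul, hHat.2.1 K k (n + 1) m cK YK dK.totalDegree dK, hcK, hdK, hdeg]
    simp only [hYK]
  obtain ⟨y, hyβ, hytop, hyZ, hyp⟩ := hY K k n PK E E' ξ β hβ m y' cK YK dK ZK
    (by rw [hcK]; exact hc) (fun i => by rw [hcK, hYK]; exact hY' i) (by rw [hdK]; exact hd)
    (fun j => by rw [hdK, hZK]; exact hZ j)
  have e1 : (fun i => β (y i)) = y' := funext hyβ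
  have hytop' : IntermediateField.adjoin k (Set.range fun i => β (y i)) = ⊤ := by
    rw [e1]
    exact hy'top
  have hfinρ : Module.Finite ρ.fieldRange E := hG1.1 K (n + 1) (Ideal.span {PK}) E ρ
  have hT : Module.finrank φ.fieldRange E' ^ M ≤ Module.finrank ρ.fieldRange E := by
    rw [← hG1.2.1 k E' φ M]
    exact hTp K k E E' β ρ (φ ^ M) hcmp hfinρ m y hytop'
  refine ⟨c₁ * (cK * hatX cK YK dK.totalDegree dK), ?_, ?_⟩
  · intro hdvd
    rcases hirrK.prime.dvd_or_dvd hdvd with h1 | h1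
    · exact hc₁ h1
    · have h2 : P ∣ c * hatX c Y d.totalDegree d := by
        rw [← heK', ← hPK]
        exact map_dvd (MvPolynomial.map (algebraMap K k)) h1
      have h3 := (hgen.ker _).2 h2
      rw [map_mul, hHat.1 k (Pl (n + 1) k) E' m c Y d.totalDegree d le_rfl (MvPolynomial.aeval ξ) y'
        hY'] at h3
      exact mul_ne_zero hc (mul_ne_zero (pow_ne_zero _ hc) hd) h3
  intro 𝔭 _ hP𝔭 hPz he𝔭 hInd hr1 hr2 L _ _ _ _ _ ρb hRstb
  by_contra hcon
  push Not at hcon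
  have hc₁𝔭 : c₁ ∉ 𝔭 := fun h1 => he𝔭 (Ideal.mul_mem_right _ _ h1)
  have he'𝔭 : cK * hatX cK YK dK.totalDegree dK ∉ 𝔭 := fun h1 => he𝔭 (Ideal.mul_mem_left _ _ h1)
  obtain ⟨u, hutop, huR, hud⟩ := hyp 𝔭 hP𝔭 he'𝔭 L
  have hle : Ideal.span {PK} ≤ 𝔭 := by
    rw [Ideal.span_le, Set.singleton_subset_iff]
    exact hP𝔭
  obtain ⟨huniq, hpoly, -, -, -, -⟩ := hRs K (n + 1) (Ideal.span {PK}) 𝔭 hle E L
  have hc0 : toF 𝔭 L c₁ ≠ 0 := toF_ne 𝔭 L hc₁𝔭
  have hu : ∀ i, RsE (Ideal.span {PK}) 𝔭 E L (h i) (toF 𝔭 L (Y₁ i) / toF 𝔭 L c₁) :=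
    fun i => ⟨Y₁ i, c₁, hc₁𝔭, hY₁ i, div_mul_cancel₀ _ hc0⟩
  obtain ⟨hlrk, hRk⟩ := hRkL K n l hl PK 𝔭 hmonK hP𝔭 hInd
  have hai := (hRk L).1
  have hux : ∀ i : Fin l, toF 𝔭 L (Y₁ (Fin.castAdd m' i)) / toF 𝔭 L c₁ =
      toF 𝔭 L (MvPolynomial.X (Fin.castLE hl i).succ) := by
    intro i
    refine huniq _ _ _ (hu _) ?_
    rw [hX₁]
    exact hpoly _
  -- the set of the first `l` indices
  have hα : ∀ a : (Finset.univ.map (Fin.castAddEmb m' : Fin l ↪ Fin (l + m')) :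
      Finset (Fin (l + m'))), ∃ i : Fin l, Fin.castAdd m' i = (a : Fin (l + m')) := by
    intro a
    have h1 := a.2
    rw [Finset.mem_map] at h1
    obtain ⟨i, -, hi⟩ := h1
    exact ⟨i, hi⟩
  choose e he using hα
  have he_inj : Function.Injective e := by
    intro a b hab
    apply Subtype.ext
    rw [← he a, ← he b, hab]
  have hai' : AlgebraicIndependent K (fun a : (Finset.univ.map
      (Fin.castAddEmb m' : Fin l ↪ Fin (l + m')) : Finset (Fin (l + m'))) =>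
      toF 𝔭 L (Y₁ (a : Fin (l + m'))) / toF 𝔭 L c₁) := by
    have h1 := hai.comp e he_inj
    have h2 : (fun a : (Finset.univ.map (Fin.castAddEmb m' : Fin l ↪ Fin (l + m')) :
        Finset (Fin (l + m'))) => toF 𝔭 L (Y₁ (a : Fin (l + m'))) / toF 𝔭 L c₁) =
        (fun i : Fin l => toF 𝔭 L (MvPolynomial.X (Fin.castLE hl i).succ)) ∘ e := by
      funext a
      rw [Function.comp_apply, ← hux, he]
    rw [h2]
    exact h1
  have hrange : Set.range (fun a : (Finset.univ.map (Fin.castAddEmb m' : Fin l ↪ Fin (l + m')) :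
      Finset (Fin (l + m'))) => h (a : Fin (l + m'))) =
      Set.range (fun a : Fin l => h (Fin.castAdd m' a)) := by
    ext w
    constructor
    · rintro ⟨a, rfl⟩
      exact ⟨e a, congrArg h (he a)⟩
    · rintro ⟨i, rfl⟩
      exact ⟨⟨Fin.castAdd m' i, Finset.mem_map.2 ⟨i, Finset.mem_univ _, rfl⟩⟩, rfl⟩
  obtain ⟨ι, hι⟩ := hResD K (n + 1) (Ideal.span {PK}) 𝔭 hle E L (l + m') h
    (fun i => toF 𝔭 L (Y₁ i) / toF 𝔭 L c₁) hu
    (Finset.univ.map (Fin.castAddEmb m' : Fin l ↪ Fin (l + m'))) hai' (by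
      intro i
      rw [hrange]
      exact halg i)
  have hmem : ∀ i, h i ∈ IntermediateField.adjoin K (Set.range h) := fun i =>
    IntermediateField.subset_adjoin K _ ⟨i, rfl⟩
  have hxE : AlgebraicIndependent K (fun a : Fin l => h (Fin.castAdd m' a)) := by
    have h1 : AlgebraicIndependent K (fun a : Fin l => (⟨h (Fin.castAdd m' a), hmem _⟩ :
        IntermediateField.adjoin K (Set.range h))) := by
      refine AlgebraicIndependent.of_comp ι ?_
      have h2 : (fun a : Fin l => ι ⟨h (Fin.castAdd m' a), hmem _⟩) =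
          fun i : Fin l => toF 𝔭 L (MvPolynomial.X (Fin.castLE hl i).succ) := by
        funext a
        exact (huniq _ _ _ (hι _) (hu _)).trans (hux a)
      have h3 : (ι ∘ fun a : Fin l => (⟨h (Fin.castAdd m' a), hmem _⟩ :
        IntermediateField.adjoin K (Set.range h))) = _ := h2
      rw [h3]
      exact hai
    exact h1.map' (f := (IntermediateField.adjoin K (Set.range h)).val)
      (IntermediateField.adjoin K (Set.range h)).val.injective
  have htrd := hTrdD K E l (l + m') h (fun a : Fin l => h (Fin.castAdd m' a)) hxE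
    (fun a => hmem _) halg
  obtain ⟨C, hC⟩ := hDeg K n PK 𝔭 hmonK hP𝔭 hPz E L m y u hytop hutop huR dK
    (fun j => ZK j.succ) hud (fun j => hyZ j.succ) (IntermediateField.adjoin K (Set.range h)) ι l hι
    htrd
  obtain ⟨t, ht⟩ := hReal (fun t => degrR k ε.fieldRange (n - l) (rk 𝔭 - l) y'
    (fun i => (φ ^ t) (y' i))) (Module.finrank φ₀.fieldRange E₀) (Module.finrank φ.fieldRange E')
    (hlam (rk 𝔭 - l) (by omega) (by omega)) M C hM
  have hρt : ∀ (t : ℕ) (x : IntermediateField.adjoin K (Set.range h)),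
      ((ρ₀ ^ t) x : E) = (ρ ^ t) (x : E) := by
    intro t
    induction t with
    | zero => intro x; rfl
    | succ t ih =>
      intro x
      rw [pow_succ, pow_succ, AlgHom.mul_apply, AlgHom.mul_apply, ih, hρ₀]
  have hfint : Module.Finite (ρ₀ ^ t).fieldRange (IntermediateField.adjoin K (Set.range h)) := by
    apply Module.finite_of_finrank_pos
    rw [hG1.2.1 K (IntermediateField.adjoin K (Set.range h)) ρ₀ t]
    exact pow_pos Module.finrank_pos t
  have h1 := hC (ρ ^ t) (ρb ^ t) (ρ₀ ^ t) (hRsR K (n + 1) (Ideal.span {PK}) 𝔭 hle E L (σK ^ M) ρ ρb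
    hRst hRstb t) (hρt t) hfint
  rw [hG1.2.1 K L ρb t, hG1.2.1 K _ ρ₀ t] at h1
  have h2 : degrR K (IntermediateField.adjoin K (Set.range h)) (n - l) (rk 𝔭 - l) y
      (fun i => (ρ ^ t) (y i)) ≤
      degrR k ε.fieldRange (n - l) (rk 𝔭 - l) y' (fun i => (φ ^ (M * t)) (y' i)) := by
    have h3 := hDesc K k E E' E₀ β hdis m y (fun i => (ρ ^ t) (y i)) hytop' ε (l + m') h g hg hβh
      (n - l) (rk 𝔭 - l)
    have e2 : (fun i => β ((ρ ^ t) (y i))) = fun i => (φ ^ (M * t)) (y' i) := by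
      funext i
      rw [pow_mul, pow_it, pow_it, ← hyβ i]
      exact pow_comm β (fun x => ρ x) (fun x => (φ ^ M) x) hcmp t (y i)
    rw [e1, e2] at h3
    exact h3
  have h5 : ((Module.finrank φ.fieldRange E' : ℕ) : ENNReal) ^ (M * t) ≤
      ((Module.finrank ρb.fieldRange L ^ t : ℕ) : ENNReal) := by
    rw [pow_mul]
    exact_mod_cast Nat.pow_le_pow_left (hT.trans hcon) t
  have h6 : ((Module.finrank ρ₀.fieldRange (IntermediateField.adjoin K (Set.range h)) ^ t : ℕ) :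
      ENNReal) ≤ ((Module.finrank φ₀.fieldRange E₀ : ℕ) : ENNReal) ^ (M * t) := by
    rw [pow_mul]
    exact_mod_cast Nat.pow_le_pow_left hT₀ t
  have h7 : (C : ENNReal) * (((Module.finrank ρ₀.fieldRange
      (IntermediateField.adjoin K (Set.range h)) ^ t : ℕ) : ENNReal) *
      degrR K (IntermediateField.adjoin K (Set.range h)) (n - l) (rk 𝔭 - l) y
        (fun i => (ρ ^ t) (y i))) ≤
      C * (((Module.finrank φ₀.fieldRange E₀ : ℕ) : ENNReal) ^ (M * t) *
        degrR k ε.fieldRange (n - l) (rk 𝔭 - l) y' (fun i => (φ ^ (M * t)) (y' i))) :=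
    mul_le_mul_right (mul_le_mul' h6 h2) _
  exact absurd (h5.trans (h1.trans h7)) (not_le.mpr ht)

end Pool.Agent.Lib.MP_16285c_agT
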