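import Pool.Agent.Lib.MP_16285c_agT.Spec

/-! (LvR) The level condition, relative form (ZDTR). -/

set_option autoImplicit false

namespace Pool.Agent.Lib.MP_16285c_agT

open Pool.Agent.Lib.MP_16285c_ag Pool.Agent.Lib.MP_16285c_agN Pool.Agent.Lib.MP_16285c_agX
  Pool.Agent.Lib.MP_16285c_agY

theorem tLvR (hMod : StmtModR) (hGro : StmtGroR) : StmtLvR := by
  intro k _ _ _ n l m₀ hn hl P f hP hM hI hNo E' E₀ _ _ _ _ ε φ φ₀ hεφ ξ hξ hfξ x₀ y₀ hy₀ hx₀ hb m y' hy'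
    hlam
  have hcast : (fun i : Fin l => (Fin.append x₀ y₀ : Fin (l + m₀) → E₀) (Fin.castAdd m₀ i)) = x₀ := by
    funext i
    exact Fin.append_left x₀ y₀ i
  have htop : IntermediateField.adjoin k (Set.range (Fin.append x₀ y₀ : Fin (l + m₀) → E₀)) = ⊤ := by
    rw [eq_top_iff, ← hy₀]
    apply IntermediateField.adjoin.mono
    rintro _ ⟨j, rfl⟩
    exact ⟨Fin.natAdd l j, Fin.append_right x₀ y₀ j⟩
  have hG : GrR l P f := by
    refine hGro k n l m₀ hl P f hP hM hI E' E₀ ε φ φ₀ hεφ ξ hξ hfξ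
      (Fin.append x₀ y₀ : Fin (l + m₀) → E₀) htop (fun i => ?_) ?_ m y' hy' hlam
    · rw [Fin.append_left]
      exact hx₀ i
    · rw [hcast]
      exact hb
  exact hMod k n l P f hn hP hM hI hNo hG

end Pool.Agent.Lib.MP_16285c_agT
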