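import Pool.Agent.Lib.MP_16285c_agT.Spec

/-!
# Towers with relative dynamical degrees: the growth estimate (RealR)
-/

set_option autoImplicit false

namespace Pool.Agent.Lib.MP_16285c_agT

open Pool.Agent.Lib.MP_16285c_ag Pool.Agent.Lib.MP_16285c_agN Pool.Agent.Lib.MP_16285c_agX Pool.Agent.Lib.MP_16285c_agY

open Filter in
theorem tRealR (hReal : StmtReal2) : StmtRealR := by
  intro d τ₀ τ hlim M C hM
  have h0 : Filter.limsup (fun m : ℕ => ((τ₀ : ENNReal) ^ m * d m) ^ ((m : ℝ)⁻¹)) Filter.atTop <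
      (τ : ENNReal) := by
    have h1 : Filter.limsup (fun m : ℕ => ((τ₀ : ENNReal) ^ m * d m) ^ ((m : ℝ)⁻¹)) Filter.atTop =
        Filter.limsup (fun m : ℕ => (τ₀ : ENNReal) * d m ^ ((m : ℝ)⁻¹)) Filter.atTop := by
      apply Filter.limsup_congr
      filter_upwards [eventually_ge_atTop 1] with m hm
      rw [ENNReal.mul_rpow_of_nonneg _ _ (by positivity), ENNReal.pow_rpow_inv_natCast (by omega)]
    rw [h1, ENNReal.limsup_const_mul_of_ne_top (ENNReal.natCast_ne_top τ₀), mul_comm]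
    exact hlim
  exact hReal (fun m => (τ₀ : ENNReal) ^ m * d m) τ h0 M C hM

end Pool.Agent.Lib.MP_16285c_agT
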