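import Pool.Agent.Lib.MP_16285c_agT.Spec
import Pool.Agent.Lib.MP_16285c_agN.Degr.Res

/-!
# (ResR) The residue map of a subfield over the base
-/

set_option autoImplicit false

namespace Pool.Agent.Lib.MP_16285c_agT

open Pool.Agent.Lib.MP_16285c_ag Pool.Agent.Lib.MP_16285c_agN Pool.Agent.Lib.MP_16285c_agX Pool.Agent.Lib.MP_16285c_agY
open Pool.Agent.Lib.MP_16285c_agS (toF)

namespace TResRM

theorem rse_aeval {K : Type} [Field K] {n : ℕ} {𝔮 𝔭 : Ideal (Pl n K)} {E L D : Type} [Field E]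
    [Algebra (CR 𝔮) E] [Field L] [Algebra (CR 𝔭) L] [Field D] [Algebra D E] [Algebra D L]
    (hc : ∀ c : D, RsE 𝔮 𝔭 E L (algebraMap D E c) (algebraMap D L c))
    (ha : ∀ h h' u u', RsE 𝔮 𝔭 E L h u → RsE 𝔮 𝔭 E L h' u' → RsE 𝔮 𝔭 E L (h + h') (u + u'))
    (hm : ∀ h h' u u', RsE 𝔮 𝔭 E L h u → RsE 𝔮 𝔭 E L h' u' → RsE 𝔮 𝔭 E L (h * h') (u * u'))
    {ι : Type} {y : ι → E} {z : ι → L} (h : ∀ i, RsE 𝔮 𝔭 E L (y i) (z i)) (P : MvPolynomial ι D) :
    RsE 𝔮 𝔭 E L (MvPolynomial.aeval y P) (MvPolynomial.aeval z P) := by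
  induction P using MvPolynomial.induction_on with
  | C a =>
    rw [MvPolynomial.aeval_C, MvPolynomial.aeval_C]
    exact hc a
  | add p q hp hq =>
    rw [map_add, map_add]
    exact ha _ _ _ _ hp hq
  | mul_X p i hp =>
    rw [map_mul, map_mul, MvPolynomial.aeval_X, MvPolynomial.aeval_X]
    exact hm _ _ _ _ hp (h i)

/-- Algebraic independence of the images. -/
theorem ind {K D L α : Type} [Field K] [Field D] [Field L] [Algebra K D] [Algebra K L]
    [Algebra D L] (ρ₀ : D →ₐ[K] D) (ρb : L →ₐ[K] L)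
    (hcomm : ∀ d : D, algebraMap D L (ρ₀ d) = ρb (algebraMap D L d))
    (hfin : Module.Finite ρ₀.fieldRange D) (u : α → L) (hu : AlgebraicIndependent D u) :
    AlgebraicIndependent D (fun a => ρb (u a)) := by
  have a2 : IsScalarTower ρ₀.fieldRange D L := inferInstance
  have a3 : Algebra.IsAlgebraic ρ₀.fieldRange D := inferInstance
  have h1 : AlgebraicIndependent ρ₀.fieldRange (ρb.toRingHom ∘ u) := by
    refine AlgebraicIndependent.ringHom_of_comp_eq (ρ₀.rangeRestrict.toRingHom : D →+* ρ₀.range)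
      ρb.toRingHom hu ρ₀.rangeRestrict_surjective ρb.toRingHom.injective ?_
    ext d
    exact hcomm d
  exact h1.extendScalars D

end TResRM

open TResRM DegrResM in
theorem tResR (hRs : StmtRsE) (hCmp3 : StmtCmp3) : StmtResR := by
  intro K _ n 𝔮 𝔭 _ _ hqp E _ _ _ _ _ L _ _ _ _ _ D ι₀ hι₀ m y u hyu α hα ρ ρb ρ₀ hρ hρ₀ hfin
    hfin₀
  obtain ⟨hu, hG, hc, ha, hm, hi⟩ := hRs K n 𝔮 𝔭 hqp E L
  have h1 : Algebra.EssFiniteType K (CR 𝔭) := inferInstance
  have h2 : Algebra.EssFiniteType (CR 𝔭) L :=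
    Algebra.EssFiniteType.of_isLocalization L (nonZeroDivisors (CR 𝔭))
  have h3 : Algebra.EssFiniteType K L := Algebra.EssFiniteType.comp K (CR 𝔭) L
  have hcomm : ∀ d : D, ι₀ (ρ₀ d) = ρb (ι₀ d) := by
    intro d
    have e1 := hι₀ (ρ₀ d)
    rw [hρ₀] at e1
    exact hu _ _ _ e1 (hρ _ _ (hι₀ d))
  letI aD : Algebra D L := ι₀.toRingHom.toAlgebra
  have aM : ∀ d : D, algebraMap D L d = ι₀ d := fun d => rfl
  have aT : IsScalarTower K D L :=
    IsScalarTower.of_algebraMap_eq fun c => (ι₀.commutes c).symm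
  set z₀ : α → L := fun a => u (a : Fin m) with hz₀
  have hz₀i : AlgebraicIndependent D z₀ :=
    AlgebraicIndependent.of_ringHom_of_comp_eq (S := ι₀.fieldRange) (B := L)
      (f := (ι₀.rangeRestrict.toRingHom : D →+* ι₀.range)) (g := RingHom.id L) hα.1
      ι₀.rangeRestrict.toRingHom.injective (by ext d; rfl)
  set z : α → L := fun a => ρb (z₀ a) with hzdef
  have hz : AlgebraicIndependent D z := ind ρ₀ ρb hcomm hfin₀ z₀ hz₀i
  have hyz : ∀ a : α, RsE 𝔮 𝔭 E L (ρ (y (a : Fin m))) (z a) := fun a =>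
    hρ _ _ (hyu (a : Fin m))
  have hcD : ∀ c : D, RsE 𝔮 𝔭 E L (algebraMap D E c) (algebraMap D L c) := hι₀
  have hy : AlgebraicIndependent D (fun a : α => ρ (y (a : Fin m))) := by
    rw [algebraicIndependent_iff]
    intro P hP
    have e1 := rse_aeval hcD ha hm hyz P
    rw [hP] at e1
    have e2 := hc 0
    rw [map_zero, map_zero] at e2
    have e3 := hu _ _ _ e1 e2
    exact (algebraicIndependent_iff.1 hz) P e3
  set κ : IntermediateField D E :=
    IntermediateField.adjoin D (Set.range fun a : α => ρ (y (a : Fin m))) with hκ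
  set j : κ →ₐ[D] L := (IntermediateField.val _).comp
      (hz.aevalEquivField.toAlgHom.comp hy.aevalEquivField.symm.toAlgHom) with hj
  have hja : ∀ c, j c = ((hz.aevalEquivField (hy.aevalEquivField.symm c) :
      IntermediateField.adjoin D (Set.range z)) : L) := fun c => rfl
  have hjR : ∀ c : κ, RsE 𝔮 𝔭 E L (c : E) (j c) := by
    intro c
    obtain ⟨P, Q, hQ, hPQ⟩ := IsFractionRing.div_surjective (A := MvPolynomial α D)
      (hy.aevalEquivField.symm c)
    have hc' : (c : E) = MvPolynomial.aeval (fun a : α => ρ (y (a : Fin m))) P /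
        MvPolynomial.aeval (fun a : α => ρ (y (a : Fin m))) Q := by
      rw [← ev_div hy, hPQ, AlgEquiv.apply_symm_apply]
    have hc'' : j c = MvPolynomial.aeval z P / MvPolynomial.aeval z Q := by
      rw [hja, ← hPQ, ev_div hz]
    have hQ0 : MvPolynomial.aeval z Q ≠ 0 := by
      intro h0
      have h7 : Q = 0 := (algebraicIndependent_iff.1 hz) Q h0
      exact nonZeroDivisors.ne_zero hQ h7
    rw [hc', hc'', div_eq_mul_inv, div_eq_mul_inv]
    exact hm _ _ _ _ (rse_aeval hcD ha hm hyz P) (hi _ _ (rse_aeval hcD ha hm hyz Q) hQ0).2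
  have hjr : ∀ x : L, (∃ c, j c = x) ↔ x ∈ IntermediateField.adjoin D (Set.range z) := by
    intro x
    constructor
    · rintro ⟨c, rfl⟩
      rw [hja]
      exact SetLike.coe_mem _
    · intro hx
      refine ⟨hy.aevalEquivField (hz.aevalEquivField.symm ⟨x, hx⟩), ?_⟩
      rw [hja, AlgEquiv.symm_apply_apply, AlgEquiv.apply_symm_apply]
  set ι : κ.restrictScalars K →ₐ[K] L := j.restrictScalars K with hι
  have hιr : ∀ x : L, x ∈ ι.fieldRange ↔ x ∈ IntermediateField.adjoin D (Set.range z) := hjr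
  set A : IntermediateField K L :=
    (IntermediateField.adjoin ι₀.fieldRange (Set.range z₀)).restrictScalars K with hA
  have hA1 : Algebra.IsAlgebraic (IntermediateField.adjoin ι₀.fieldRange (Set.range z₀)) L :=
    hα.isAlgebraic_field
  have hA2 : Module.Finite A L := fin_of_alg K L A hA1
  have hAe : A = IntermediateField.adjoin K ((ι₀.fieldRange : Set L) ∪ Set.range z₀) :=
    IntermediateField.restrictScalars_adjoin K ι₀.fieldRange (Set.range z₀)
  have hrank := finrank_map K L A ρb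
  have hR0 : ι₀.fieldRange ≤ ι.fieldRange := by
    rintro x ⟨d, rfl⟩
    rw [hιr]
    exact (IntermediateField.adjoin D (Set.range z)).algebraMap_mem d
  have hzA : ∀ a, z a ∈ A.map ρb := fun a =>
    ⟨z₀ a, IntermediateField.subset_adjoin ι₀.fieldRange (Set.range z₀) ⟨a, rfl⟩, rfl⟩
  have hle : A.map ρb ≤ ι.fieldRange := by
    rw [hAe, IntermediateField.adjoin_map, IntermediateField.adjoin_le_iff]
    rintro x ⟨w, hw, rfl⟩
    rcases hw with hw | ⟨a, rfl⟩
    · obtain ⟨d, rfl⟩ := hw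
      exact hR0 ⟨ρ₀ d, hcomm d⟩
    · change z a ∈ ι.fieldRange
      rw [hιr]
      exact IntermediateField.subset_adjoin D (Set.range z) ⟨a, rfl⟩
  have hsup : ι₀.fieldRange ⊔ A.map ρb = ι.fieldRange := by
    apply le_antisymm (sup_le hR0 hle)
    intro x hx
    rw [hιr] at hx
    have h5 : IntermediateField.adjoin D (Set.range z) ≤
        (ι₀.fieldRange ⊔ A.map ρb).toSubfield.toIntermediateField (fun d =>
          (le_sup_left : ι₀.fieldRange ≤ ι₀.fieldRange ⊔ A.map ρb) ⟨d, rfl⟩) := by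
      rw [IntermediateField.adjoin_le_iff]
      rintro w ⟨a, rfl⟩
      exact (le_sup_right : A.map ρb ≤ ι₀.fieldRange ⊔ A.map ρb) (hzA a)
    exact h5 hx
  have hpos : 0 < Module.finrank A L := Module.finrank_pos
  have hpos' : 0 < Module.finrank ρb.fieldRange L := Module.finrank_pos
  have h6 := IntermediateField.relfinrank_mul_finrank_top hle
  have hfι : Module.Finite ι.fieldRange L := by
    apply Module.finite_of_finrank_pos
    rw [Nat.pos_iff_ne_zero]
    intro h0
    rw [h0, mul_zero, hrank] at h6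
    exact (Nat.mul_pos hpos hpos').ne h6
  refine ⟨ι, hjR, hfι, ?_⟩
  have h7 := hCmp3 K D L ι₀ ρ₀.fieldRange (A.map ρb) ?_ hfin₀ (by rw [hsup]; exact hfι)
  · rw [hsup, hrank] at h7
    exact (Nat.le_mul_of_pos_left _ hpos).trans h7
  · rintro x ⟨w, ⟨d, rfl⟩, rfl⟩
    refine ⟨ι₀ d, ?_, (hcomm d).symm⟩
    exact (IntermediateField.adjoin ι₀.fieldRange (Set.range z₀)).algebraMap_mem
      ⟨ι₀ d, ⟨d, rfl⟩⟩

end Pool.Agent.Lib.MP_16285c_agT
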