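import Pool.Agent.Lib.MP_16285c_agT.Spec

/-!
# MP_16285c, ZDT: transcendence degrees over a subfield (proof of `StmtTrdR`)
-/

set_option autoImplicit false

namespace Pool.Agent.Lib.MP_16285c_agT

open Pool.Agent.Lib.MP_16285c_ag Pool.Agent.Lib.MP_16285c_agN Pool.Agent.Lib.MP_16285c_agX Pool.Agent.Lib.MP_16285c_agY

namespace TTrdRM

open scoped IntermediateField.algebraAdjoinAdjoin

/-- `E / κ(S)` algebraic implies `E` algebraic over the algebra generated by `S`. -/
theorem alg_of_adjoin {κ E : Type} [Field κ] [Field E] [Algebra κ E] (S : Set E)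
    (h : Algebra.IsAlgebraic (IntermediateField.adjoin κ S) E) :
    Algebra.IsAlgebraic (Algebra.adjoin κ S) E :=
  Algebra.IsAlgebraic.trans (Algebra.adjoin κ S) (IntermediateField.adjoin κ S) E

end TTrdRM

open TTrdRM

/-- Proof of `StmtTrdR`. -/
theorem tTrdR : StmtTrdR := by
  intro K E _ _ _ n r κ hn hr s l hl hfin
  have halg : Algebra.IsAlgebraic (IntermediateField.adjoin κ (Set.range l)) E :=
    Algebra.IsAlgebraic.of_finite _ _
  have hb : IsTranscendenceBasis κ l :=
    isTranscendenceBasis_iff_algebraicIndependent_isAlgebraic.2 ⟨hl, alg_of_adjoin _ halg⟩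
  have hc := hb.cardinalMk_eq_trdeg
  have hadd := trdeg_add_eq K κ (A := E)
  rw [hr, hn, ← hc, Cardinal.mk_fintype, Fintype.card_fin] at hadd
  exact_mod_cast hadd

end Pool.Agent.Lib.MP_16285c_agT
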