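import Pool.Agent.Lib.MP_16285c_agT.Spec
import Pool.Agent.Lib.MP_16285c_agY.VarY

/-!
# The theorem for towers, relative form
-/

set_option autoImplicit false

namespace Pool.Agent.Lib.MP_16285c_agT

open MvPolynomial
open Pool.Agent.Lib.MP_16285c_ag (RM)
open Pool.Agent.Lib.MP_16285c_agN (Pl)
open Pool.Agent.Lib.MP_16285c_agX Pool.Agent.Lib.MP_16285c_agY
open Pool.Agent.ZDO (Wd Jc dd nn)
open Pool.Agent.Lib.MP_16285c_agS.G (FF cls ValAt)

namespace TVarRM

/-- The field of the base as a subfield of the next field. -/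
theorem comap_eq {k Ω : Type} [Field k] [Field Ω] [Algebra k Ω] (F F' : IntermediateField k Ω)
    (h : F ≤ F') : F.comap F'.val = (IntermediateField.inclusion h).fieldRange := by
  ext z
  constructor
  · intro hz
    exact ⟨⟨(z : Ω), hz⟩, Subtype.ext rfl⟩
  · rintro ⟨w, rfl⟩
    exact w.2

end TVarRM

open Pool.Agent.Lib.MP_16285c_agY.YVarYM TVarRM in
theorem tVarR (hTop : StmtTopY) (hAdp : StmtAdp) (hLvD : StmtLvD) (hLvR : StmtLvR) (hTrf : StmtTrf)
    (hPts : StmtPtsX) (hHc : StmtHcn) (hZero : StmtZeroX) : StmtVarR := by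
  classical
  intro k _ _ _ m I _ φ s F n μ y ψ hF0 hFs hFm htr hy hψ hlam hinv b hb
  have hn0 : n 0 = 0 := by
    have h1 := htr 0 (Nat.zero_le _)
    rw [trdeg_bot (F 0) hF0] at h1
    exact_mod_cast h1.symm
  have htrs : Algebra.trdeg k (FF I) = n s := by
    rw [← trdeg_top (F s) hFs]
    exact htr s le_rfl
  have htrI : Algebra.trdeg k (MvPolynomial (Fin m) k ⧸ I) = n s := by
    have h1 := trdeg_add_eq k (MvPolynomial (Fin m) k ⧸ I) (A := FF I)
    have h3 : Algebra.IsAlgebraic (MvPolynomial (Fin m) k ⧸ I) (FF I) :=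
      IsLocalization.isAlgebraic _ (nonZeroDivisors (MvPolynomial (Fin m) k ⧸ I))
    have h2 : Algebra.trdeg (MvPolynomial (Fin m) k ⧸ I) (FF I) = 0 := trdeg_eq_zero
    rw [h2, add_zero, htrs] at h1
    exact h1
  rcases Nat.eq_zero_or_pos (n s) with hns | hns
  · exact hZero k m I (by rw [htrI, hns]; exact Nat.cast_zero) φ b hb
  obtain ⟨x, hx, hxc⟩ := hAdp k (FF I) s F n hFm htr
  have hinvj : ∀ j ≤ s, ∀ h : F j, ψ j h = h → ∃ c : k, h = algebraMap k (F j) c := by
    intro j hj h hh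
    obtain ⟨c, hc⟩ := hinv h (by rw [← hψ j hj h, hh])
    exact ⟨c, Subtype.ext hc⟩
  -- the models of the levels
  have hD : ∀ j, ∃ (P : Pl (n j + 1) k) (ξ : Fin (n j + 1) → F j) (f : RM k (n j + 1)), j ≤ s →
      (Irreducible P ∧ MonZ P ∧ GenN P ξ ∧ (∀ i : Fin (n j), ξ i.succ = x j i) ∧ InvX f P ∧
        (∀ i, fvn f ξ i = ψ j (ξ i)) ∧ NoIX f P ∧
        ∀ l : ℕ, (∀ r : ℕ, l < r → r + 2 ≤ n j → lamX k (n j) r (y j) (ψ j) <
          (Module.finrank (ψ j).fieldRange (F j) : ENNReal)) →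
          ∃ e : Pl (n j + 1) k, ¬ P ∣ e ∧ GrY l P e f) := by
    intro j
    by_cases hj : j ≤ s
    · obtain ⟨P, ξ, f, h⟩ := hLvD k (F j) (n j) (μ j) (y j) (ψ j) (x j) (hy j hj) (hx j hj)
        (hinvj j hj)
      exact ⟨P, ξ, f, fun _ => h⟩
    · exact ⟨0, 0, ⟨fun _ => 0, fun _ => 0⟩, fun h => absurd h hj⟩
  choose P ξ f hD using hD
  -- the first level of positive dimension
  obtain ⟨j₀, ⟨hj₀s, hj₀n⟩, hj₀m⟩ : ∃ j₀, (j₀ ≤ s ∧ 1 ≤ n j₀) ∧ ∀ j < j₀, ¬ (j ≤ s ∧ 1 ≤ n j) := by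
    have hex : ∃ j, j ≤ s ∧ 1 ≤ n j := ⟨s, le_rfl, hns⟩
    exact ⟨Nat.find hex, Nat.find_spec hex, fun j hj => Nat.find_min hex hj⟩
  have hj₀0 : j₀ ≠ 0 := by
    rintro rfl
    omega
  obtain ⟨i₀, rfl⟩ := Nat.exists_eq_succ_of_ne_zero hj₀0
  have hi₀ : n i₀ = 0 := by
    by_contra h
    exact hj₀m i₀ (Nat.lt_succ_self _) ⟨by omega, by omega⟩
  obtain ⟨s', rfl⟩ := Nat.exists_eq_add_of_le hj₀s
  have hmon : ∀ j < i₀.succ + s', n j ≤ n (j + 1) := fun j hj => (hxc j hj).1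
  have hmon' : ∀ d j : ℕ, j + d ≤ i₀.succ + s' → n j ≤ n (j + d) := by
    intro d
    induction d with
    | zero => intro j _; exact le_rfl
    | succ d ih =>
      intro j hj
      exact (ih j (by omega)).trans (hmon (j + d) (by omega))
  -- compatibility with the top level
  have hcomp : ∀ d j : ℕ, j + d = i₀.succ + s' → F j ≤ F (i₀.succ + s') ∧ n j ≤ n (i₀.succ + s') ∧
      ∀ (i : Fin (n j)) (i' : Fin (n (i₀.succ + s'))), (i : ℕ) = i' →
        (x j i : FF I) = x (i₀.succ + s') i' := by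
    intro d
    induction d with
    | zero =>
      intro j hj
      rw [add_zero] at hj
      subst hj
      refine ⟨le_rfl, le_rfl, fun i i' h => ?_⟩
      rw [Fin.ext h]
    | succ d ih =>
      intro j hj
      obtain ⟨h1, h2, h3⟩ := ih (j + 1) (by omega)
      have h4 := hxc j (by omega)
      refine ⟨(hFm j (by omega)).trans h1, h4.1.trans h2, fun i i' h => ?_⟩
      rw [h4.2 i (Fin.castLE h4.1 i) rfl]
      exact h3 _ _ h
  -- the level condition
  have hGrL : ∀ i < i₀.succ + s', 1 ≤ n (i + 1) → GrL (n i) (P (i + 1)) (f (i + 1)) := by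
    intro i hi hi1
    obtain ⟨hP, hM, hG, hξ, hI, hfv, hN, -⟩ := hD (i + 1) (by omega)
    refine hLvR k (n (i + 1)) (n i) (μ i) hi1 (hmon i hi) (P (i + 1)) (f (i + 1)) hP hM hI hN
      (F (i + 1)) (F i) (IntermediateField.inclusion (hFm i hi)) (ψ (i + 1)) (ψ i) ?_
      (ξ (i + 1)) hG hfv (x i) (y i) (hy i (by omega)) ?_ (hx i (by omega)) (μ (i + 1)) (y (i + 1))
      (hy (i + 1) (by omega)) (fun a h1 h2 => by
        rw [← comap_eq (F i) (F (i + 1)) (hFm i hi)]
        exact hlam i hi a h1 h2)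
    · intro h
      apply Subtype.ext
      rw [IntermediateField.coe_inclusion, hψ i (by omega), hψ (i + 1) (by omega),
        IntermediateField.coe_inclusion]
    · intro a
      rw [hξ]
      apply Subtype.ext
      rw [IntermediateField.coe_inclusion]
      exact (hxc i hi).2 _ _ rfl
  obtain ⟨hPs, hMs, hGs, hξs, hIs, hfvs, hNs, -⟩ := hD (i₀.succ + s') le_rfl
  refine pts_fin hPts hHc I (n (i₀.succ + s')) (P (i₀.succ + s'))
    (fun i => (ξ (i₀.succ + s') i : FF I)) (f (i₀.succ + s')) φ hPs (gen_coe _ hFs _ _ hGs) hIs ?_ ?_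
    b hb
  · intro i
    rw [fvn_coe, hfvs, hψ _ le_rfl]
  · intro b' hb'
    refine hTop k s' (fun j => n (i₀.succ + j)) (fun j => P (i₀.succ + j))
      (fun j => f (i₀.succ + j)) ?_ ?_ ?_ ?_ ?_ ?_ ?_ ?_ b' hb'
    · intro j hj
      exact hj₀n.trans (hmon' j i₀.succ (by omega))
    · intro j hj
      exact hmon (i₀.succ + j) (by omega)
    · intro j hj
      exact (hD (i₀.succ + j) (by omega)).1
    · intro j hj
      exact (hD (i₀.succ + j) (by omega)).2.1
    · intro j hj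
      exact (hD (i₀.succ + j) (by omega)).2.2.2.2.1
    · have h1 := hGrL i₀ (by omega) hj₀n
      rw [hi₀] at h1
      exact h1
    · intro j hj
      exact hGrL (i₀.succ + j) (by omega)
        (hj₀n.trans (hmon' (j + 1) i₀.succ (by omega)))
    · intro j hj
      obtain ⟨h1, h2, h3⟩ := hcomp (s' - j) (i₀.succ + j) (by omega)
      obtain ⟨hP, hM, hG, hξ, hI, hfv, hN, -⟩ := hD (i₀.succ + j) (by omega)
      refine hTrf k (n (i₀.succ + s')) (n (i₀.succ + j)) (P (i₀.succ + s')) (f (i₀.succ + s'))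
        (P (i₀.succ + j)) (f (i₀.succ + j)) h2 hPs hP hIs hI (F (i₀.succ + s')) (F (i₀.succ + j))
        (IntermediateField.inclusion h1) (ψ (i₀.succ + s')) (ψ (i₀.succ + j)) ?_
        (ξ (i₀.succ + s')) (ξ (i₀.succ + j)) hGs hG hfvs hfv ?_
      · intro h
        apply Subtype.ext
        rw [IntermediateField.coe_inclusion, hψ _ (by omega), hψ _ le_rfl,
          IntermediateField.coe_inclusion]
      · intro i i' hii
        rw [hξ, hξs]
        apply Subtype.ext
        rw [IntermediateField.coe_inclusion]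
        exact h3 i i' hii

end Pool.Agent.Lib.MP_16285c_agT
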