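import Pool.Agent.Lib.MP_16285c_agY.All
import Pool.Agent.Lib.MP_16285c_agT.BkR
import Pool.Agent.Lib.MP_16285c_agT.Cmp3
import Pool.Agent.Lib.MP_16285c_agT.DegR
import Pool.Agent.Lib.MP_16285c_agT.DescR
import Pool.Agent.Lib.MP_16285c_agT.FldA
import Pool.Agent.Lib.MP_16285c_agT.GroR
import Pool.Agent.Lib.MP_16285c_agT.LvR
import Pool.Agent.Lib.MP_16285c_agT.ModR
import Pool.Agent.Lib.MP_16285c_agT.RealR
import Pool.Agent.Lib.MP_16285c_agT.ResR
import Pool.Agent.Lib.MP_16285c_agT.TrdD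
import Pool.Agent.Lib.MP_16285c_agT.TrdR
import Pool.Agent.Lib.MP_16285c_agT.VarR

/-!
# Dense orbits for rational maps which preserve a tower of fibrations: the theorem, relative form
-/

set_option autoImplicit false

namespace Pool.Agent.Lib.MP_16285c_agT

open Pool.Agent.Lib.MP_16285c_ag Pool.Agent.Lib.MP_16285c_agN Pool.Agent.Lib.MP_16285c_agX
open Pool.Agent.Lib.MP_16285c_agY
open Pool.Agent.Lib.MP_16285c_agS (tDom tNoPow)

theorem aFldA : StmtFldA :=
  tFldA tCmpB tTpLe tFn tCmn tAlgR tAlgK tG1 tDom (tPresX stmtJacQ) stmtResF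

theorem aResR : StmtResR := tResR tRsE tCmp3

theorem aDegR : StmtDegR :=
  tDegR tRsE (tLocO tRsE tA2) tLowF (tLowB tLowA) (tLowC tVd) tTB tRelX aResR tThetaX tTrdR tBkR
    tHat (tNum tCnt) tNN tUpF (tUp tVd) tG1

theorem aGroR : StmtGroR :=
  tGroR tRsE tRsR aDegR tBet tCmpB tDescR tTpX (tYX tRsE tHat) tHat tG1 (tRealR tReal2) aFldA
    (tResD tRsE) aRkL tCmn tTrdD

theorem aModR : StmtModR :=
  tModR cCanX tDom (tPresX stmtJacQ) stmtResF tG1 tNoEX tNoPow tNoDescX iDesc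

theorem aLvR : StmtLvR := tLvR aModR aGroR

/-- The theorem for towers. -/
theorem towers : StmtVarR := tVarR aTopY tAdp aLvD aLvR aTrf (tPtsX tHat) tHcn tZeroX

end Pool.Agent.Lib.MP_16285c_agT
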