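import Pool.Agent.Lib.MP_16285c_agY.Spec

/-!
# Towers with relative dynamical degrees: definitions and statements (note 4979, relative form)

`D : IntermediateField K E` is the function field of the base in the function field `E` of the total space. `degrR K D e i y g`: the relative `i`-th degree (`e` = relative dimension) of the rational map with the components `g`.

Every lemma is a `Prop` with its proof in the docstring; used statements are hypotheses (file `X.lean`, `theorem tX : StmtX` or `StmtY → StmtX`, namespace `Pool.Agent.Lib.MP_16285c_agT`, auxiliary lemmas in the namespace `Pool.Agent.Lib.MP_16285c_agT.TXM` with `X` the name of the file).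
Most files are edits of landed files of `Lib/MP_16285c_agX/Gro`, `Lib/MP_16285c_agY`.
-/

set_option autoImplicit false

namespace Pool.Agent.Lib.MP_16285c_agT

open Pool.Agent.Lib.MP_16285c_ag Pool.Agent.Lib.MP_16285c_agN Pool.Agent.Lib.MP_16285c_agX Pool.Agent.Lib.MP_16285c_agY
open Pool.Agent.Lib.MP_16285c_agS (toF vanK StmtInvD StmtNoPowE StmtPresK StmtRkK StmtIrrK StmtPrimS StmtLowS StmtConjS StmtDescS StmtDom StmtUni)
open Pool.Agent.Lib.MP_16285c_agS.G (FF cls ValAt)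

/-! ## Definitions -/

/-- The relative `i`-th degree of the rational map with the components `g` (`e` = relative dimension, `y` = coordinates, `D` = function field of the base). -/
noncomputable def degrR (K : Type) {E : Type} [Field K] [Field E] [Algebra K E] (D : IntermediateField K E) {m : ℕ}
    (e i : ℕ) (y g : Fin m → E) : ENNReal :=
  ⨆ (A : Fin (e - i) → Fin m → K) (B : Fin i → Fin m → K),
    (Module.finrank (IntermediateField.adjoin D (Set.range (lfX A y) ∪ Set.range (lfX B g))) E : ENNReal)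

/-- The relative `i`-th dynamical degree of the rational self-map with the homomorphism `φ`. -/
noncomputable def lamR (K : Type) {E : Type} [Field K] [Field E] [Algebra K E] (D : IntermediateField K E) {m : ℕ}
    (e i : ℕ) (y : Fin m → E) (φ : E →ₐ[K] E) : ENNReal :=
  Filter.limsup (fun t : ℕ => degrR K D e i y (fun j => (φ ^ t) (y j)) ^ ((t : ℝ)⁻¹)) Filter.atTop

section

variable {K : Type} [Field K] {n : ℕ}

/-- No subvariety `V(𝔭)` of dimension `r`, `1 ≤ r ≤ n - 2`, of the hypersurface `P = 0` outside `e * pderiv 0 P = 0`, which dominates the base and is preserved by `σ`, has residue degree `≥ T`. -/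
def NoFullR (l : ℕ) (P e : Pl (n + 1) K) (σ : RF (n + 1) K →ₐ[K] RF (n + 1) K) (T : ℕ) : Prop :=
  ∀ (𝔭 : Ideal (Pl (n + 1) K)) [𝔭.IsPrime], P ∈ 𝔭 → MvPolynomial.pderiv 0 P ∉ 𝔭 → e ∉ 𝔭 →
    IndL l 𝔭 → 1 ≤ rk 𝔭 → rk 𝔭 + 2 ≤ n →
    ∀ (L : Type) [Field L] [Algebra (CR 𝔭) L] [IsFractionRing (CR 𝔭) L] [Algebra K L]
      [IsScalarTower K (CR 𝔭) L] (ρb : L →ₐ[K] L), Rst σ 𝔭 L ρb →
      Module.finrank ρb.fieldRange L < T

/-- The growth hypothesis: `GrL` with `NoFullR l` in place of `NoFullL l` and without `ρ ≠ id`. -/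
def GrR {k : Type} [Field k] (l : ℕ) (P : Pl (n + 1) k) (f : RM k (n + 1)) : Prop :=
  ∃ S : Finset k, ∀ (K : Type) [Field K] [CharZero K] [Algebra K k] (PK : Pl (n + 1) K)
    (fK : RM K (n + 1)), (∀ s ∈ S, s ∈ Set.range (algebraMap K k)) →
    MvPolynomial.map (algebraMap K k) PK = P → fK.map (algebraMap K k) = f → Irreducible PK →
    MonZ PK → InvX fK PK → ∀ σK : RF (n + 1) K →ₐ[K] RF (n + 1) K, Of fK σK → ∀ M : ℕ, 1 ≤ M →
    ∀ (E : Type) [Field E] [Algebra (CR (Ideal.span {PK})) E] [IsFractionRing (CR (Ideal.span {PK})) E]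
      [Algebra K E] [IsScalarTower K (CR (Ideal.span {PK})) E] (ρ : E →ₐ[K] E),
      Rst (σK ^ M) (Ideal.span {PK}) E ρ →
        ∃ e' : Pl (n + 1) K, ¬ PK ∣ e' ∧ NoFullR l PK e' (σK ^ M) (Module.finrank ρ.fieldRange E)

end

/-! ## Degrees on a subvariety which dominates the base -/

/-- (Cmp3) Degrees of a compositum. PROOF. Let `b : Basis _ A B`-like: a finite basis `b i` of `B` over `A` (`A ≤ B`; `B` as a vector space over `A`: `IntermediateField.extendScalars h : IntermediateField A L`). The `C`-span of the `b i` in `L` is a finite dimensional `C`-subalgebra of `L` (a domain), so a field; it contains `B` and `C`, so it contains `B ⊔ C`; so `[B ⊔ C : C] ≤ [B : A]`. Multiply by `[L : B ⊔ C]`. (In Mathlib see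
`IntermediateField.relfinrank`, `relfinrank_sup_right`, `relfinrank_le`, `finrank_sup_le`.) Here it is stated with `L` on top: `[L : C] ≤ [B : A] * [L : B ⊔ C]`, for `[B : A]` finite; `[B : A]` is written as `Module.finrank (IntermediateField.restrict..)`; to avoid this it is the degree of the homomorphism `j : B' →ₐ[K] L` with `B = j.fieldRange`, `A = j (A')`. -/
def StmtCmp3 : Prop :=
  ∀ (K B L : Type) [Field K] [Field B] [Field L] [Algebra K B] [Algebra K L] (j : B →ₐ[K] L) (A : IntermediateField K B)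
    (C : IntermediateField K L), A.map j ≤ C → Module.Finite A B → Module.Finite (j.fieldRange ⊔ C : IntermediateField K L) L →
    Module.finrank C L ≤ Module.finrank A B * Module.finrank (j.fieldRange ⊔ C : IntermediateField K L) L

/-- (ResR) The residue map of the field `κ = D(ρ(y_a) : a ∈ α)`. PROOF (uses `StmtRsE`, `StmtCmp3`; edit of `Lib/MP_16285c_agX/Gro/ResX.lean` with `D` in place of `K`). `Algebra D L := ι₀.toAlgebra`. `z a = ρb (u a)`, `RsE (ρ (y a)) (z a)`. (1) `z` is algebraically independent over `ι₀.fieldRange`, and `L` is algebraic over `ι₀.fieldRange(z)`: `u` is a transcendence basis of `L` over `ι₀.fieldRange`, so `ρb ∘ u` is one of `ρb.fieldRange` over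
`ρb (ι₀.fieldRange) = (ι₀.comp ρ₀).fieldRange` (`ι₀ (ρ₀ d) = ρb (ι₀ d)`: uniqueness of residues), `L` is algebraic (finite) over `ρb.fieldRange`, and `ι₀.fieldRange` is algebraic (finite) over `(ι₀.comp ρ₀).fieldRange` (image of `D` over `ρ₀.fieldRange`): so `z` is a transcendence basis of `L` over `(ι₀.comp ρ₀).fieldRange`, and over `ι₀.fieldRange` (algebraic independence is preserved by algebraic extension of the base:
`AlgebraicIndependent.extendScalars` or the like; or by counting transcendence degrees). (2) `RsE (aeval (ρ ∘ y) G) (aeval z G)` for `G : MvPolynomial α D` (induction; coefficients by the hypothesis on `ι₀`), so `fun a => ρ (y a)` is algebraically independent over `D`. `ι = ` the composition of `hy.aevalEquivField.symm` and `hz.aevalEquivField` (over `D`), restricted to `K`; residues as in `ResX.lean`. (3) `κb = ι.fieldRange = ι₀.fieldRange(z)`; `L` is algebraic over it and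
finitely generated, so finite. Degrees: `κ₁ = ρb (ι₀.fieldRange(u)) = ι₀(ρ₀ D)(z)`, contained in `ρb.fieldRange` and in `κb`, `κb = ι₀.fieldRange ⊔ κ₁`. `[L : ρb.fieldRange] ≤ [L : κ₁]` (`κ₁ ≤ ρb.fieldRange`, `[L : κ₁]` finite) `≤ [D : ρ₀ D] * [L : κb]` (`StmtCmp3` for `B = D`, `j = ι₀`, `A = ρ₀.fieldRange`, `C = κ₁`). -/
def StmtResR : Prop :=
  ∀ (K : Type) [Field K] (n : ℕ) (𝔮 𝔭 : Ideal (Pl n K)) [𝔮.IsPrime] [𝔭.IsPrime], 𝔮 ≤ 𝔭 →
    ∀ (E : Type) [Field E] [Algebra (CR 𝔮) E] [IsFractionRing (CR 𝔮) E] [Algebra K E] [IsScalarTower K (CR 𝔮) E]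
      (L : Type) [Field L] [Algebra (CR 𝔭) L] [IsFractionRing (CR 𝔭) L] [Algebra K L] [IsScalarTower K (CR 𝔭) L]
      (D : IntermediateField K E) (ι₀ : D →ₐ[K] L), (∀ d : D, RsE 𝔮 𝔭 E L (d : E) (ι₀ d)) →
      ∀ (m : ℕ) (y : Fin m → E) (u : Fin m → L), (∀ i, RsE 𝔮 𝔭 E L (y i) (u i)) → ∀ α : Finset (Fin m),
      IsTranscendenceBasis ι₀.fieldRange (fun a : α => u (a : Fin m)) →
      ∀ (ρ : E →ₐ[K] E) (ρb : L →ₐ[K] L) (ρ₀ : D →ₐ[K] D),
        (∀ h v, RsE 𝔮 𝔭 E L h v → RsE 𝔮 𝔭 E L (ρ h) (ρb v)) → (∀ d, (ρ₀ d : E) = ρ (d : E)) →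
      Module.Finite ρb.fieldRange L → Module.Finite ρ₀.fieldRange D →
      ∃ ι : (IntermediateField.adjoin D (Set.range fun a : α => ρ (y (a : Fin m)))).restrictScalars K →ₐ[K] L,
        (∀ c : (IntermediateField.adjoin D (Set.range fun a : α => ρ (y (a : Fin m)))).restrictScalars K,
          RsE 𝔮 𝔭 E L (c : E) (ι c)) ∧ Module.Finite ι.fieldRange L ∧
        Module.finrank ρb.fieldRange L ≤ Module.finrank ρ₀.fieldRange D * Module.finrank ι.fieldRange L

/-- (TrdR) PROOF. `trdeg K κ + trdeg κ E = trdeg K E` (`Algebra.trdeg_add_eq`); `l` is a transcendence basis of `E` over `κ` (`E` is algebraic over `κ(l)`), so `trdeg κ E = s`. Compare `Lib/MP_16285c_agX/Gro/TrdX.lean`. -/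
def StmtTrdR : Prop :=
  ∀ (K E : Type) [Field K] [Field E] [Algebra K E] (n r : ℕ) (κ : IntermediateField K E), Algebra.trdeg K E = n →
    Algebra.trdeg K κ = r → ∀ (s : ℕ) (l : Fin s → E), AlgebraicIndependent κ l →
    Module.Finite (IntermediateField.adjoin κ (Set.range l)) E → r + s = n

/-- (BkR) Bookkeeping. PROOF. Edit `Lib/MP_16285c_agX/Gro/BkX.lean` (`B` = the unit vectors of `α`). The two intermediate fields `adjoin κ (range (lfX A y))` (over `κ = (adjoin D (range g_a)).restrictScalars K`) and `adjoin D (range (lfX A y) ∪ range (lfX B g))` have the same elements, so `E` has the same degree over them (`IntermediateField.adjoin_adjoin_left`, over `D`; or compare the subfields of `E`). -/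
def StmtBkR : Prop :=
  ∀ (K E : Type) [Field K] [Field E] [Algebra K E] (D : IntermediateField K E) (e m : ℕ) (α : Finset (Fin m)) (y g : Fin m → E)
    (A : Fin (e - α.card) → Fin m → K),
    (Module.finrank (IntermediateField.adjoin
      ((IntermediateField.adjoin D (Set.range fun a : α => g (a : Fin m))).restrictScalars K)
      (Set.range (lfX A y))) E : ENNReal) ≤ degrR K D e α.card y g

/-- (DegR) The relative degree on a subvariety. PROOF (uses `StmtRsE`, `StmtLocO`, `StmtLowF`, `StmtLowB`, `StmtLowC`, `StmtTB`, `StmtRelX`, `StmtResR`, `StmtThetaX`, `StmtTrdR`, `StmtBkR`, `StmtHat`, `StmtNum`, `StmtNN`, `StmtUpF`, `StmtUp`, `StmtG1`). Edit of `Lib/MP_16285c_agX/Gro/DegrPX.lean`: `α'` (transcendence basis of the `x̄ j` over `K`), `F, w, U, v, O, res, Φ, G` unchanged. `α : Finset (Fin m)`: the `u a`, `a ∈ α`, are a transcendence basis of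
`L` over `ι₀.fieldRange` (`StmtTB` (1) for the field `ι₀.fieldRange`; `adj_top`). `l + α.card = rk 𝔭`: `trdeg K L = rk 𝔭` (`StmtTB` (2) for `α'`), `trdeg K ι₀.fieldRange = trdeg K D = l`, additivity. `C = (D' + 1) ^ (n - rk 𝔭)` with `D' = ∑ j, (G j).totalDegree`. For `ρ, ρb, ρ₀`: `ι` from `StmtResR` (`κ = (adjoin D (range ρ(y_a))).restrictScalars K`), `θ` from `StmtThetaX` for `ι.fieldRange`; `StmtLowB`, `StmtLowC`, `StmtNN` for `K, κ, E, y`; `StmtUpF`, `StmtUp`;
`StmtTrdR` for `κ`: `trdeg K κ = trdeg K ι.fieldRange = trdeg K L = rk 𝔭` (`κ ≅ ι.fieldRange`, `L` finite over it), so `s = n - rk 𝔭 = (n - l) - α.card`. `StmtNum`: `[L : ι.fieldRange] ≤ e * (D' + 1) ^ (n - rk 𝔭)` with `e = [E : κ(A y)] ≤ degrR K D (n - l) α.card y (ρ ∘ y)` (`StmtBkR`). -/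
def StmtDegR : Prop :=
  ∀ (K : Type) [Field K] [CharZero K] (n : ℕ) (P : Pl (n + 1) K) (𝔭 : Ideal (Pl (n + 1) K)) [(Ideal.span {P}).IsPrime] [𝔭.IsPrime],
    MonZ P → P ∈ 𝔭 → MvPolynomial.pderiv 0 P ∉ 𝔭 →
    ∀ (E : Type) [Field E] [Algebra (CR (Ideal.span {P})) E] [IsFractionRing (CR (Ideal.span {P})) E] [Algebra K E]
      [IsScalarTower K (CR (Ideal.span {P})) E]
      (L : Type) [Field L] [Algebra (CR 𝔭) L] [IsFractionRing (CR 𝔭) L] [Algebra K L] [IsScalarTower K (CR 𝔭) L]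
      (m : ℕ) (y : Fin m → E) (u : Fin m → L), IntermediateField.adjoin K (Set.range y) = ⊤ →
      IntermediateField.adjoin K (Set.range u) = ⊤ → (∀ i, RsE (Ideal.span {P}) 𝔭 E L (y i) (u i)) →
      ∀ (d : MvPolynomial (Fin m) K) (Z : Fin n → MvPolynomial (Fin m) K), MvPolynomial.aeval u d ≠ 0 →
      (∀ j : Fin n, toF (Ideal.span {P}) E (MvPolynomial.X j.succ) * MvPolynomial.aeval y d =
        MvPolynomial.aeval y (Z j)) →
      ∀ (D : IntermediateField K E) (ι₀ : D →ₐ[K] L) (l : ℕ), (∀ c : D, RsE (Ideal.span {P}) 𝔭 E L (c : E) (ι₀ c)) →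
      Algebra.trdeg K D = l →
      ∃ C : ℕ, ∀ (ρ : E →ₐ[K] E) (ρb : L →ₐ[K] L) (ρ₀ : D →ₐ[K] D),
        (∀ h v, RsE (Ideal.span {P}) 𝔭 E L h v → RsE (Ideal.span {P}) 𝔭 E L (ρ h) (ρb v)) →
        (∀ c, (ρ₀ c : E) = ρ (c : E)) → Module.Finite ρ₀.fieldRange D →
        (Module.finrank ρb.fieldRange L : ENNReal) ≤
          C * (Module.finrank ρ₀.fieldRange D * degrR K D (n - l) (rk 𝔭 - l) y (fun i => ρ (y i)))

/-! ## From `K` to `k` -/

/-- (DescR) The relative degrees over `K` are at most those over `k`. PROOF. `GroDescXM.key` of `Lib/MP_16285c_agX/Gro/DescX.lean` for `S = range h ∪ range (lfX A y) ∪ range (lfX B g')`: `adjoin D S'` with `D = adjoin K (range h)` and `adjoin K (range h ∪ S')` have the same elements; `β '' S = range (ε ∘ g) ∪ range (lfX A' (β ∘ y)) ∪ range (lfX B' (β ∘ g'))` (`lf_be` there), and `adjoin k (range (ε ∘ g)) = ε.fieldRange` (`AlgHom.fieldRange_eq_map`, `adjoin_map`). Then `le_iSup₂`. -/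
def StmtDescR : Prop :=
  ∀ (K k : Type) [Field K] [Field k] [Algebra K k] (E E' E₀ : Type) [Field E] [Field E'] [Field E₀] [Algebra K E] [Algebra k E']
    [Algebra k E₀] [Algebra K E'] [IsScalarTower K k E'] (β : E →ₐ[K] E'),
    (∀ (s : ℕ) (b : Fin s → k), LinearIndependent K b → ∀ h : Fin s → E,
      ∑ t, algebraMap k E' (b t) * β (h t) = 0 → ∀ t, h t = 0) →
    ∀ (m : ℕ) (y g' : Fin m → E), IntermediateField.adjoin k (Set.range fun i => β (y i)) = ⊤ →
      ∀ (ε : E₀ →ₐ[k] E') (q : ℕ) (h : Fin q → E) (g : Fin q → E₀), IntermediateField.adjoin k (Set.range g) = ⊤ →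
      (∀ i, β (h i) = ε (g i)) →
      ∀ e i : ℕ, degrR K (IntermediateField.adjoin K (Set.range h)) e i y g' ≤
        degrR k ε.fieldRange e i (fun j => β (y j)) (fun j => β (g' j))

/-- (RealR) PROOF (uses `StmtReal2` for `d' t = τ₀ ^ t * d t`). For `t ≥ 1`: `(τ₀ ^ t * d t) ^ (1/t) = τ₀ * d t ^ (1/t)` (`ENNReal.mul_rpow_of_nonneg`, `ENNReal.pow_rpow_inv_natCast` or the like), so the limsup is `τ₀ * limsup` (`ENNReal.limsup_const_mul_of_ne_top`, `Filter.limsup_congr`). -/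
def StmtRealR : Prop :=
  ∀ (d : ℕ → ENNReal) (τ₀ τ : ℕ),
    Filter.limsup (fun m : ℕ => d m ^ ((m : ℝ)⁻¹)) Filter.atTop * (τ₀ : ENNReal) < (τ : ENNReal) →
    ∀ M C : ℕ, 1 ≤ M → ∃ m : ℕ, (C : ENNReal) * ((τ₀ : ENNReal) ^ (M * m) * d (M * m)) < (τ : ENNReal) ^ (M * m)

/-- (FldA) The subfield over `K`: the statement of `StmtGrBA` (`Lib/MP_16285c_agY/Spec.lean`; same proof) for a given `β`, without the hypothesis on the degrees, and with the conclusions `β (h i) = ε (g i)`, `ρ₀` finite, `[D : ρ₀ D] ≤ T₀ ^ M`. PROOF: steps (1) - (5) of the docstring of `StmtGrBA` (in (4) only `StmtTpLe`; `Module.Finite ρ₀.fieldRange D` by `StmtFn` for `D`, generated by the `h i`). -/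
def StmtFldA : Prop :=
  ∀ (k : Type) [Field k] [IsAlgClosed k] [CharZero k] (n l m' : ℕ) (hl : l ≤ n) (P : Pl (n + 1) k) (f : RM k (n + 1)),
    Irreducible P → MonZ P → InvX f P →
    ∀ (E' E₀ : Type) [Field E'] [Algebra k E'] [Field E₀] [Algebra k E₀] (ε : E₀ →ₐ[k] E') (φ : E' →ₐ[k] E')
      (φ₀ : E₀ →ₐ[k] E₀), (∀ h, ε (φ₀ h) = φ (ε h)) →
      ∀ (ξ : Fin (n + 1) → E'), GenN P ξ → (∀ i, fvn f ξ i = φ (ξ i)) →
      ∀ g : Fin (l + m') → E₀, IntermediateField.adjoin k (Set.range g) = ⊤ →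
      (∀ i : Fin l, ε (g (Fin.castAdd m' i)) = ξ (Fin.castLE hl i).succ) →
      IsTranscendenceBasis k (fun i : Fin l => g (Fin.castAdd m' i)) →
    ∃ S : Finset k, ∀ (K : Type) [Field K] [CharZero K] [Algebra K k] (PK : Pl (n + 1) K)
      (fK : RM K (n + 1)), (∀ s ∈ S, s ∈ Set.range (algebraMap K k)) →
      MvPolynomial.map (algebraMap K k) PK = P → fK.map (algebraMap K k) = f → Irreducible PK →
      MonZ PK → InvX fK PK → ∀ σK : RF (n + 1) K →ₐ[K] RF (n + 1) K, Of fK σK → ∀ M : ℕ, 1 ≤ M →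
      ∀ (E : Type) [Field E] [Algebra (CR (Ideal.span {PK})) E] [IsFractionRing (CR (Ideal.span {PK})) E]
        [Algebra K E] [IsScalarTower K (CR (Ideal.span {PK})) E] (ρ : E →ₐ[K] E),
        Rst (σK ^ M) (Ideal.span {PK}) E ρ →
        ∀ [Algebra K E'] [IsScalarTower K k E'] (β : E →ₐ[K] E'),
        (∀ G, β (toF (Ideal.span {PK}) E G) = MvPolynomial.aeval ξ (MvPolynomial.map (algebraMap K k) G)) →
        (∀ (s : ℕ) (b : Fin s → k), LinearIndependent K b → ∀ h : Fin s → E,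
          ∑ t, algebraMap k E' (b t) * β (h t) = 0 → ∀ t, h t = 0) →
        ∃ (c : Pl (n + 1) K) (Y : Fin (l + m') → Pl (n + 1) K) (h : Fin (l + m') → E)
          (ρ₀ : IntermediateField.adjoin K (Set.range h) →ₐ[K] IntermediateField.adjoin K (Set.range h)),
          ¬ PK ∣ c ∧ (∀ i, h i * toF (Ideal.span {PK}) E c = toF (Ideal.span {PK}) E (Y i)) ∧
          (∀ i : Fin l, h (Fin.castAdd m' i) = toF (Ideal.span {PK}) E (MvPolynomial.X (Fin.castLE hl i).succ)) ∧
          (∀ i, β (h i) = ε (g i)) ∧ (∀ d, (ρ₀ d : E) = ρ (d : E)) ∧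
          (∀ i, IsAlgebraic (IntermediateField.adjoin K (Set.range fun a : Fin l => h (Fin.castAdd m' a))) (h i)) ∧
          Module.Finite ρ₀.fieldRange (IntermediateField.adjoin K (Set.range h)) ∧
          Module.finrank ρ₀.fieldRange (IntermediateField.adjoin K (Set.range h)) ≤
            Module.finrank φ₀.fieldRange E₀ ^ M

/-- (GroR) (helper62). PROOF (uses `StmtRsE`, `StmtRsR`, `StmtDegR`, `StmtBet`, `StmtCmpB`, `StmtDescR`, `StmtTpX`, `StmtYX`, `StmtHat`, `StmtG1`, `StmtRealR`, `StmtFldA`, `StmtResD`, `StmtRkL`, `StmtCmn`). As `Lib/MP_16285c_agX/Gro/GroX.lean` and `Lib/MP_16285c_agY/GrBB.lean`. -/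
def StmtGroR : Prop :=
  ∀ (k : Type) [Field k] [IsAlgClosed k] [CharZero k] (n l m' : ℕ) (hl : l ≤ n) (P : Pl (n + 1) k) (f : RM k (n + 1)),
    Irreducible P → MonZ P → InvX f P →
    ∀ (E' E₀ : Type) [Field E'] [Algebra k E'] [Field E₀] [Algebra k E₀] (ε : E₀ →ₐ[k] E') (φ : E' →ₐ[k] E')
      (φ₀ : E₀ →ₐ[k] E₀), (∀ h, ε (φ₀ h) = φ (ε h)) →
      ∀ (ξ : Fin (n + 1) → E'), GenN P ξ → (∀ i, fvn f ξ i = φ (ξ i)) →
      ∀ g : Fin (l + m') → E₀, IntermediateField.adjoin k (Set.range g) = ⊤ →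
      (∀ i : Fin l, ε (g (Fin.castAdd m' i)) = ξ (Fin.castLE hl i).succ) →
      IsTranscendenceBasis k (fun i : Fin l => g (Fin.castAdd m' i)) →
      ∀ (m : ℕ) (y' : Fin m → E'), IntermediateField.adjoin k (Set.range y') = ⊤ →
      (∀ i : ℕ, 1 ≤ l + i → l + i + 2 ≤ n → lamR k ε.fieldRange (n - l) i y' φ *
        (Module.finrank φ₀.fieldRange E₀ : ENNReal) < (Module.finrank φ.fieldRange E' : ENNReal)) → GrR l P f

/-- (ModR) Edit `Lib/MP_16285c_agX/Top/ModX.lean` or `Lib/MP_16285c_agY/ModY.lean`. `S` = the set of `GrR`; `e' = e₁ * up K n Γ` with `e₁` the polynomial of `GrR` for `K, …`. `NoFullL`: if `rk 𝔭 + 2 ≤ n` use `GrR`, if `rk 𝔭 + 1 = n` use `StmtCanX`. -/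
def StmtModR : Prop :=
  ∀ (k : Type) [Field k] [IsAlgClosed k] [CharZero k] (n l : ℕ) (P : Pl (n + 1) k)
    (f : RM k (n + 1)), 1 ≤ n → Irreducible P → MonZ P → InvX f P → NoIX f P → GrR l P f → GrL l P f

/-- (LvR) The level condition. PROOF (uses `StmtModR`, `StmtGroR`; compare `Lib/MP_16285c_agY/LvG.lean`): `g : Fin (l + m₀) → E₀` the concatenation of `x₀` and `y₀`. -/
def StmtLvR : Prop :=
  ∀ (k : Type) [Field k] [IsAlgClosed k] [CharZero k] (n l m₀ : ℕ) (_ : 1 ≤ n) (hl : l ≤ n) (P : Pl (n + 1) k)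
    (f : RM k (n + 1)), Irreducible P → MonZ P → InvX f P → NoIX f P →
    ∀ (E' E₀ : Type) [Field E'] [Algebra k E'] [Field E₀] [Algebra k E₀] (ε : E₀ →ₐ[k] E') (φ : E' →ₐ[k] E')
      (φ₀ : E₀ →ₐ[k] E₀), (∀ h, ε (φ₀ h) = φ (ε h)) →
      ∀ (ξ : Fin (n + 1) → E'), GenN P ξ → (∀ i, fvn f ξ i = φ (ξ i)) →
      ∀ (x₀ : Fin l → E₀) (y₀ : Fin m₀ → E₀), IntermediateField.adjoin k (Set.range y₀) = ⊤ →
      (∀ i : Fin l, ε (x₀ i) = ξ (Fin.castLE hl i).succ) → IsTranscendenceBasis k x₀ →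
      ∀ (m : ℕ) (y' : Fin m → E'), IntermediateField.adjoin k (Set.range y') = ⊤ →
      (∀ i : ℕ, 1 ≤ l + i → l + i + 2 ≤ n → lamR k ε.fieldRange (n - l) i y' φ *
        (Module.finrank φ₀.fieldRange E₀ : ENNReal) < (Module.finrank φ.fieldRange E' : ENNReal)) → GrL l P f

/-- (VarR) The theorem (helper62; edit of `Lib/MP_16285c_agY/VarY.lean`, `StmtLvR` in place of `StmtLvG`). `(F j).comap (F (j + 1)).val` is `F j` as a subfield of `F (j + 1)`. -/
def StmtVarR : Prop :=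
  ∀ (k : Type) [Field k] [IsAlgClosed k] [CharZero k] (m : ℕ) (I : Ideal (MvPolynomial (Fin m) k)) [I.IsPrime]
    (φ : FF I →ₐ[k] FF I) (s : ℕ) (F : ℕ → IntermediateField k (FF I)) (n μ : ℕ → ℕ)
    (y : ∀ j, Fin (μ j) → F j) (ψ : ∀ j, F j →ₐ[k] F j),
    F 0 = ⊥ → F s = ⊤ → (∀ j < s, F j ≤ F (j + 1)) → (∀ j ≤ s, Algebra.trdeg k (F j) = n j) →
    (∀ j ≤ s, IntermediateField.adjoin k (Set.range (y j)) = ⊤) →
    (∀ j ≤ s, ∀ h : F j, (ψ j h : FF I) = φ h) →
    (∀ j < s, ∀ i : ℕ, 1 ≤ n j + i → n j + i + 2 ≤ n (j + 1) →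
      lamR k ((F j).comap (F (j + 1)).val) (n (j + 1) - n j) i (y (j + 1)) (ψ (j + 1)) *
        (Module.finrank (ψ j).fieldRange (F j) : ENNReal) <
      (Module.finrank (ψ (j + 1)).fieldRange (F (j + 1)) : ENNReal)) →
    (∀ h : FF I, φ h = h → ∃ c : k, h = algebraMap k (FF I) c) → ∀ b : MvPolynomial (Fin m) k, b ∉ I →
    ∃ x : ℕ → Fin m → k, (∀ t, (∀ A ∈ I, MvPolynomial.eval (x t) A = 0) ∧ MvPolynomial.eval (x t) b ≠ 0 ∧
      ∀ i, ValAt I (φ (cls I (MvPolynomial.X i))) (x t) (x (t + 1) i)) ∧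
      ∀ A : MvPolynomial (Fin m) k, A ∉ I → ∃ t, MvPolynomial.eval (x t) A ≠ 0

end Pool.Agent.Lib.MP_16285c_agT
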