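import Pool.Agent.Lib.MP_16285c_agT.All

/-!
# The theorem for towers, relative form, for a variety given by generators of its function field
-/

set_option autoImplicit false

namespace Pool.Agent.Lib.MP_16285c_agT

open MvPolynomial
open Pool.Agent.Lib.MP_16285c_ag (RM)
open Pool.Agent.Lib.MP_16285c_agN (Pl)
open Pool.Agent.Lib.MP_16285c_agX Pool.Agent.Lib.MP_16285c_agY
open Pool.Agent.ZDO (Wd Jc dd nn)
open Pool.Agent.Lib.MP_16285c_agS.G (FF cls ValAt)

/-- The theorem for the variety with the function field `K` and the coordinate functions `g`. -/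
def StmtVarK : Prop :=
  ∀ (k : Type) [Field k] [IsAlgClosed k] [CharZero k] (K : Type) [Field K] [Algebra k K] (m : ℕ)
    (g : Fin m → K), IntermediateField.adjoin k (Set.range g) = ⊤ →
    ∀ (φ : K →ₐ[k] K) (s : ℕ) (F : ℕ → IntermediateField k K) (n μ : ℕ → ℕ)
    (y : ∀ j, Fin (μ j) → F j) (ψ : ∀ j, F j →ₐ[k] F j),
    F 0 = ⊥ → F s = ⊤ → (∀ j < s, F j ≤ F (j + 1)) → (∀ j ≤ s, Algebra.trdeg k (F j) = n j) →
    (∀ j ≤ s, IntermediateField.adjoin k (Set.range (y j)) = ⊤) →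
    (∀ j ≤ s, ∀ h : F j, (ψ j h : K) = φ h) →
    (∀ j < s, ∀ i : ℕ, 1 ≤ n j + i → n j + i + 2 ≤ n (j + 1) →
      lamR k ((F j).comap (F (j + 1)).val) (n (j + 1) - n j) i (y (j + 1)) (ψ (j + 1)) *
        (Module.finrank (ψ j).fieldRange (F j) : ENNReal) <
      (Module.finrank (ψ (j + 1)).fieldRange (F (j + 1)) : ENNReal)) →
    (∀ h : K, φ h = h → ∃ c : k, h = algebraMap k K c) →
    ∀ b : MvPolynomial (Fin m) k, aeval g b ≠ 0 →
    ∃ x : ℕ → Fin m → k, (∀ t, (∀ A : MvPolynomial (Fin m) k, aeval g A = 0 → eval (x t) A = 0) ∧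
      eval (x t) b ≠ 0 ∧
      ∀ i, ∃ A B : MvPolynomial (Fin m) k, eval (x t) B ≠ 0 ∧ φ (g i) * aeval g B = aeval g A ∧
        eval (x t) A = x (t + 1) i * eval (x t) B) ∧
      ∀ A : MvPolynomial (Fin m) k, aeval g A ≠ 0 → ∃ t, eval (x t) A ≠ 0

namespace TVarKM

/-- The function field of the zero set of the relations between the generators. -/
theorem exists_equiv {k K : Type} [Field k] [Field K] [Algebra k K] {m : ℕ} (g : Fin m → K)
    (hg : IntermediateField.adjoin k (Set.range g) = ⊤) (I : Ideal (MvPolynomial (Fin m) k))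
    [I.IsPrime] (hI : ∀ A : MvPolynomial (Fin m) k, A ∈ I ↔ aeval g A = 0) :
    ∃ e : FF I ≃ₐ[k] K, ∀ A : MvPolynomial (Fin m) k, e (cls I A) = aeval g A := by
  have h0 : ∀ A : MvPolynomial (Fin m) k, A ∈ I → (aeval g : MvPolynomial (Fin m) k →ₐ[k] K) A = 0 :=
    fun A hA => (hI A).1 hA
  have hinj : Function.Injective (Ideal.Quotient.liftₐ I (aeval g : MvPolynomial (Fin m) k →ₐ[k] K) h0) := by
    rw [injective_iff_map_eq_zero]
    intro z hz
    obtain ⟨A, rfl⟩ := Ideal.Quotient.mk_surjective z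
    exact Ideal.Quotient.eq_zero_iff_mem.2 ((hI A).2 hz)
  have key : ∀ A : MvPolynomial (Fin m) k,
      IsFractionRing.liftAlgHom (K := FF I) hinj (cls I A) = aeval g A := by
    intro A
    rw [cls, IsFractionRing.liftAlgHom_apply, IsFractionRing.lift_algebraMap]
    exact Ideal.Quotient.lift_mk _ _ _
  have hsurj : Function.Surjective (IsFractionRing.liftAlgHom (K := FF I) hinj) := by
    rw [← AlgHom.fieldRange_eq_top, eq_top_iff, ← hg, IntermediateField.adjoin_le_iff]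
    rintro _ ⟨i, rfl⟩
    exact ⟨cls I (X i), by
      have h := key (X i)
      rw [aeval_X] at h
      exact h⟩
  exact ⟨AlgEquiv.ofBijective _ ⟨(IsFractionRing.liftAlgHom (K := FF I) hinj).toRingHom.injective, hsurj⟩, key⟩

/-- Values. -/
theorem value {k K : Type} [Field k] [Field K] [Algebra k K] {m : ℕ} (g : Fin m → K)
    (I : Ideal (MvPolynomial (Fin m) k)) [I.IsPrime] (e : FF I ≃ₐ[k] K)
    (he : ∀ A : MvPolynomial (Fin m) k, e (cls I A) = aeval g A) (h : FF I) (x : Fin m → k) (c : k)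
    (hv : ValAt I h x c) :
    ∃ A B : MvPolynomial (Fin m) k, eval x B ≠ 0 ∧ e h * aeval g B = aeval g A ∧
      eval x A = c * eval x B := by
  obtain ⟨A, B, h1, h2, h3⟩ := hv
  refine ⟨A, B, h1, ?_, h3⟩
  rw [← he, ← he, ← map_mul, h2]

/-- From `FF I` to `K`. -/
theorem transfer {k K : Type} [Field k] [Field K] [Algebra k K] {m : ℕ} (g : Fin m → K)
    (I : Ideal (MvPolynomial (Fin m) k)) [I.IsPrime] (hI : ∀ A : MvPolynomial (Fin m) k, A ∈ I ↔ aeval g A = 0)
    (e : FF I ≃ₐ[k] K) (he : ∀ A : MvPolynomial (Fin m) k, e (cls I A) = aeval g A) (φ : K →ₐ[k] K)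
    (b : MvPolynomial (Fin m) k)
    (H : ∃ x : ℕ → Fin m → k, (∀ t, (∀ A ∈ I, eval (x t) A = 0) ∧ eval (x t) b ≠ 0 ∧
      ∀ i, ValAt I ((((e.symm : K →ₐ[k] FF I).comp φ).comp (e : FF I →ₐ[k] K)) (cls I (X i))) (x t)
        (x (t + 1) i)) ∧
      ∀ A : MvPolynomial (Fin m) k, A ∉ I → ∃ t, eval (x t) A ≠ 0) :
    ∃ x : ℕ → Fin m → k, (∀ t, (∀ A : MvPolynomial (Fin m) k, aeval g A = 0 → eval (x t) A = 0) ∧
      eval (x t) b ≠ 0 ∧
      ∀ i, ∃ A B : MvPolynomial (Fin m) k, eval (x t) B ≠ 0 ∧ φ (g i) * aeval g B = aeval g A ∧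
        eval (x t) A = x (t + 1) i * eval (x t) B) ∧
      ∀ A : MvPolynomial (Fin m) k, aeval g A ≠ 0 → ∃ t, eval (x t) A ≠ 0 := by
  obtain ⟨x, h1, h2⟩ := H
  refine ⟨x, fun t => ⟨fun A hA => (h1 t).1 A ((hI A).2 hA), (h1 t).2.1, fun i => ?_⟩,
    fun A hA => h2 A (fun h => hA ((hI A).1 h))⟩
  obtain ⟨A, B, h3, h4, h5⟩ := value g I e he _ _ _ ((h1 t).2.2 i)
  refine ⟨A, B, h3, ?_, h5⟩
  rw [← h4]
  have h6 : e ((((e.symm : K →ₐ[k] FF I).comp φ).comp (e : FF I →ₐ[k] K)) (cls I (X i))) = φ (g i) := by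
    rw [AlgHom.comp_apply, AlgHom.comp_apply]
    have h7 : (e : FF I →ₐ[k] K) (cls I (X i)) = g i := by
      have h8 := he (X i)
      rw [aeval_X] at h8
      exact h8
    rw [h7]
    exact e.apply_symm_apply _
  rw [h6]

theorem aeval_map' {k E E' : Type} [Field k] [Field E] [Field E'] [Algebra k E] [Algebra k E']
    (ε : E →ₐ[k] E') {n : ℕ} (ξ : Fin n → E) (A : MvPolynomial (Fin n) k) :
    aeval (fun i => ε (ξ i)) A = ε (aeval ξ A) := by
  have h := congrArg (fun g : MvPolynomial (Fin n) k →ₐ[k] E' => g A) (comp_aeval ξ ε)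
  exact h.symm

theorem gen_map {k E E' : Type} [Field k] [Field E] [Field E'] [Algebra k E] [Algebra k E']
    (ε : E ≃ₐ[k] E') {n : ℕ} (P : MvPolynomial (Fin n) k) (ξ : Fin n → E) (h : GenN P ξ) :
    GenN P (fun i => (ε : E →ₐ[k] E') (ξ i)) := by
  refine ⟨fun A => ?_, ?_⟩
  · rw [aeval_map', ← h.ker]
    exact map_eq_zero_iff _ ε.injective
  · rw [eq_top_iff]
    intro z _
    have h2 : (⊤ : IntermediateField k E) ≤
        (IntermediateField.adjoin k (Set.range fun i => (ε : E →ₐ[k] E') (ξ i))).comap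
          (ε : E →ₐ[k] E') := by
      rw [← h.top, IntermediateField.adjoin_le_iff]
      rintro _ ⟨i, rfl⟩
      exact IntermediateField.subset_adjoin k _ ⟨i, rfl⟩
    have h3 : (ε : E →ₐ[k] E') (ε.symm z) = z := ε.apply_symm_apply z
    rw [← h3]
    exact h2 (IntermediateField.mem_top (x := ε.symm z))

theorem fvn_map {k E E' : Type} [Field k] [Field E] [Field E'] [Algebra k E] [Algebra k E']
    (ε : E →ₐ[k] E') {n : ℕ} (f : RM k n) (ξ : Fin n → E) (i : Fin n) :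
    fvn f (fun i => ε (ξ i)) i = ε (fvn f ξ i) := by
  unfold fvn
  rw [aeval_map', aeval_map', map_div₀]

end TVarKM

open Pool.Agent.Lib.MP_16285c_agY.YVarYM TVarRM TVarKM in
theorem tVarK (hTop : StmtTopY) (hAdp : StmtAdp) (hLvD : StmtLvD) (hLvR : StmtLvR) (hTrf : StmtTrf)
    (hPts : StmtPtsX) (hHc : StmtHcn) (hZero : StmtZeroX) : StmtVarK := by
  classical
  intro k _ _ _ K _ _ m g hg φ s F n μ y ψ hF0 hFs hFm htr hy hψ hlam hinv b hb
  have hIp : (RingHom.ker (aeval g : MvPolynomial (Fin m) k →ₐ[k] K)).IsPrime := RingHom.ker_isPrime _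
  obtain ⟨I, hIp, hI⟩ : ∃ (I : Ideal (MvPolynomial (Fin m) k)) (_ : I.IsPrime),
      ∀ A : MvPolynomial (Fin m) k, A ∈ I ↔ aeval g A = 0 :=
    ⟨RingHom.ker (aeval g : MvPolynomial (Fin m) k →ₐ[k] K), hIp, fun A => RingHom.mem_ker⟩
  obtain ⟨e, he⟩ := exists_equiv g hg I hI
  refine transfer g I hI e he φ b ?_
  have hn0 : n 0 = 0 := by
    have h1 := htr 0 (Nat.zero_le _)
    rw [trdeg_bot (F 0) hF0] at h1
    exact_mod_cast h1.symm
  have htrs : Algebra.trdeg k (FF I) = n s := by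
    rw [← htr s le_rfl, trdeg_top (F s) hFs]
    exact e.trdeg_eq
  have htrI : Algebra.trdeg k (MvPolynomial (Fin m) k ⧸ I) = n s := by
    have h1 := trdeg_add_eq k (MvPolynomial (Fin m) k ⧸ I) (A := FF I)
    have h3 : Algebra.IsAlgebraic (MvPolynomial (Fin m) k ⧸ I) (FF I) :=
      IsLocalization.isAlgebraic _ (nonZeroDivisors (MvPolynomial (Fin m) k ⧸ I))
    have h2 : Algebra.trdeg (MvPolynomial (Fin m) k ⧸ I) (FF I) = 0 := trdeg_eq_zero
    rw [h2, add_zero, htrs] at h1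
    exact h1
  rcases Nat.eq_zero_or_pos (n s) with hns | hns
  · exact hZero k m I (by rw [htrI, hns]; exact Nat.cast_zero) _ b (fun h => hb ((hI b).1 h))
  obtain ⟨x, hx, hxc⟩ := hAdp k K s F n hFm htr
  have hinvj : ∀ j ≤ s, ∀ h : F j, ψ j h = h → ∃ c : k, h = algebraMap k (F j) c := by
    intro j hj h hh
    obtain ⟨c, hc⟩ := hinv h (by rw [← hψ j hj h, hh])
    exact ⟨c, Subtype.ext hc⟩
  -- the models of the levels
  have hD : ∀ j, ∃ (P : Pl (n j + 1) k) (ξ : Fin (n j + 1) → F j) (f : RM k (n j + 1)), j ≤ s →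
      (Irreducible P ∧ MonZ P ∧ GenN P ξ ∧ (∀ i : Fin (n j), ξ i.succ = x j i) ∧ InvX f P ∧
        (∀ i, fvn f ξ i = ψ j (ξ i)) ∧ NoIX f P ∧
        ∀ l : ℕ, (∀ r : ℕ, l < r → r + 2 ≤ n j → lamX k (n j) r (y j) (ψ j) <
          (Module.finrank (ψ j).fieldRange (F j) : ENNReal)) →
          ∃ e : Pl (n j + 1) k, ¬ P ∣ e ∧ GrY l P e f) := by
    intro j
    by_cases hj : j ≤ s
    · obtain ⟨P, ξ, f, h⟩ := hLvD k (F j) (n j) (μ j) (y j) (ψ j) (x j) (hy j hj) (hx j hj)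
        (hinvj j hj)
      exact ⟨P, ξ, f, fun _ => h⟩
    · exact ⟨0, 0, ⟨fun _ => 0, fun _ => 0⟩, fun h => absurd h hj⟩
  choose P ξ f hD using hD
  -- the first level of positive dimension
  obtain ⟨j₀, ⟨hj₀s, hj₀n⟩, hj₀m⟩ : ∃ j₀, (j₀ ≤ s ∧ 1 ≤ n j₀) ∧ ∀ j < j₀, ¬ (j ≤ s ∧ 1 ≤ n j) := by
    have hex : ∃ j, j ≤ s ∧ 1 ≤ n j := ⟨s, le_rfl, hns⟩
    exact ⟨Nat.find hex, Nat.find_spec hex, fun j hj => Nat.find_min hex hj⟩
  have hj₀0 : j₀ ≠ 0 := by
    rintro rfl
    omega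
  obtain ⟨i₀, rfl⟩ := Nat.exists_eq_succ_of_ne_zero hj₀0
  have hi₀ : n i₀ = 0 := by
    by_contra h
    exact hj₀m i₀ (Nat.lt_succ_self _) ⟨by omega, by omega⟩
  obtain ⟨s', rfl⟩ := Nat.exists_eq_add_of_le hj₀s
  have hmon : ∀ j < i₀.succ + s', n j ≤ n (j + 1) := fun j hj => (hxc j hj).1
  have hmon' : ∀ d j : ℕ, j + d ≤ i₀.succ + s' → n j ≤ n (j + d) := by
    intro d
    induction d with
    | zero => intro j _; exact le_rfl
    | succ d ih =>
      intro j hj
      exact (ih j (by omega)).trans (hmon (j + d) (by omega))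
  -- compatibility with the top level
  have hcomp : ∀ d j : ℕ, j + d = i₀.succ + s' → F j ≤ F (i₀.succ + s') ∧ n j ≤ n (i₀.succ + s') ∧
      ∀ (i : Fin (n j)) (i' : Fin (n (i₀.succ + s'))), (i : ℕ) = i' →
        (x j i : K) = x (i₀.succ + s') i' := by
    intro d
    induction d with
    | zero =>
      intro j hj
      rw [add_zero] at hj
      subst hj
      refine ⟨le_rfl, le_rfl, fun i i' h => ?_⟩
      rw [Fin.ext h]
    | succ d ih =>
      intro j hj
      obtain ⟨h1, h2, h3⟩ := ih (j + 1) (by omega)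
      have h4 := hxc j (by omega)
      refine ⟨(hFm j (by omega)).trans h1, h4.1.trans h2, fun i i' h => ?_⟩
      rw [h4.2 i (Fin.castLE h4.1 i) rfl]
      exact h3 _ _ h
  -- the level condition
  have hGrL : ∀ i < i₀.succ + s', 1 ≤ n (i + 1) → GrL (n i) (P (i + 1)) (f (i + 1)) := by
    intro i hi hi1
    obtain ⟨hP, hM, hG, hξ, hI, hfv, hN, -⟩ := hD (i + 1) (by omega)
    refine hLvR k (n (i + 1)) (n i) (μ i) hi1 (hmon i hi) (P (i + 1)) (f (i + 1)) hP hM hI hN
      (F (i + 1)) (F i) (IntermediateField.inclusion (hFm i hi)) (ψ (i + 1)) (ψ i) ?_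
      (ξ (i + 1)) hG hfv (x i) (y i) (hy i (by omega)) ?_ (hx i (by omega)) (μ (i + 1)) (y (i + 1))
      (hy (i + 1) (by omega)) (fun a h1 h2 => by
        rw [← comap_eq (F i) (F (i + 1)) (hFm i hi)]
        exact hlam i hi a h1 h2)
    · intro h
      apply Subtype.ext
      rw [IntermediateField.coe_inclusion, hψ i (by omega), hψ (i + 1) (by omega),
        IntermediateField.coe_inclusion]
    · intro a
      rw [hξ]
      apply Subtype.ext
      rw [IntermediateField.coe_inclusion]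
      exact (hxc i hi).2 _ _ rfl
  obtain ⟨hPs, hMs, hGs, hξs, hIs, hfvs, hNs, -⟩ := hD (i₀.succ + s') le_rfl
  refine pts_fin hPts hHc I (n (i₀.succ + s')) (P (i₀.succ + s'))
    (fun i => (e.symm : K →ₐ[k] FF I) (ξ (i₀.succ + s') i : K)) (f (i₀.succ + s')) _ hPs
    (gen_map e.symm _ _ (gen_coe _ hFs _ _ hGs)) hIs ?_ ?_
    b (fun h => hb ((hI b).1 h))
  · intro i
    rw [fvn_map, fvn_coe, hfvs, hψ _ le_rfl, AlgHom.comp_apply, AlgHom.comp_apply]
    congr 2
    exact (e.apply_symm_apply _).symm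
  · intro b' hb'
    refine hTop k s' (fun j => n (i₀.succ + j)) (fun j => P (i₀.succ + j))
      (fun j => f (i₀.succ + j)) ?_ ?_ ?_ ?_ ?_ ?_ ?_ ?_ b' hb'
    · intro j hj
      exact hj₀n.trans (hmon' j i₀.succ (by omega))
    · intro j hj
      exact hmon (i₀.succ + j) (by omega)
    · intro j hj
      exact (hD (i₀.succ + j) (by omega)).1
    · intro j hj
      exact (hD (i₀.succ + j) (by omega)).2.1
    · intro j hj
      exact (hD (i₀.succ + j) (by omega)).2.2.2.2.1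
    · have h1 := hGrL i₀ (by omega) hj₀n
      rw [hi₀] at h1
      exact h1
    · intro j hj
      exact hGrL (i₀.succ + j) (by omega)
        (hj₀n.trans (hmon' (j + 1) i₀.succ (by omega)))
    · intro j hj
      obtain ⟨h1, h2, h3⟩ := hcomp (s' - j) (i₀.succ + j) (by omega)
      obtain ⟨hP, hM, hG, hξ, hI, hfv, hN, -⟩ := hD (i₀.succ + j) (by omega)
      refine hTrf k (n (i₀.succ + s')) (n (i₀.succ + j)) (P (i₀.succ + s')) (f (i₀.succ + s'))
        (P (i₀.succ + j)) (f (i₀.succ + j)) h2 hPs hP hIs hI (F (i₀.succ + s')) (F (i₀.succ + j))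
        (IntermediateField.inclusion h1) (ψ (i₀.succ + s')) (ψ (i₀.succ + j)) ?_
        (ξ (i₀.succ + s')) (ξ (i₀.succ + j)) hGs hG hfvs hfv ?_
      · intro h
        apply Subtype.ext
        rw [IntermediateField.coe_inclusion, hψ _ (by omega), hψ _ le_rfl,
          IntermediateField.coe_inclusion]
      · intro i i' hii
        rw [hξ, hξs]
        apply Subtype.ext
        rw [IntermediateField.coe_inclusion]
        exact h3 i i' hii

/-- The theorem for towers, in terms of generators of the function field. -/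
theorem towersK : StmtVarK :=
  tVarK aTopY tAdp aLvD aLvR aTrf (tPtsX tHat) tHcn tZeroX

end Pool.Agent.Lib.MP_16285c_agT
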